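import Mathlib

set_option autoImplicit false
set_option linter.unusedSectionVars false

namespace Pool.Agent.MP_49949b_co

/-- If every prime factor of `n` has odd order modulo `r` (in the sense that some odd power is `1`)
then so does `n`. -/
lemma odd_order_of_primes {r : ℕ} [Fact r.Prime] (n : ℕ) (hn : n ≠ 0)
    (h : ∀ q : ℕ, q.Prime → q ∣ n → ∃ M : ℕ, Odd M ∧ (q : ZMod r) ^ M = 1) :
    ∃ M : ℕ, Odd M ∧ (n : ZMod r) ^ M = 1 := by
  induction n using Nat.recOnMul with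
  | zero => exact absurd rfl hn
  | one => exact ⟨1, odd_one, by simp⟩
  | prime p hp => exact h p hp dvd_rfl
  | mul a b iha ihb =>
    have ha : a ≠ 0 := left_ne_zero_of_mul hn
    have hb : b ≠ 0 := right_ne_zero_of_mul hn
    obtain ⟨M1, hM1, h1⟩ := iha ha (fun q hq hqa => h q hq (hqa.mul_right b))
    obtain ⟨M2, hM2, h2⟩ := ihb hb (fun q hq hqb => h q hq (hqb.mul_left a))
    refine ⟨M1 * M2, hM1.mul hM2, ?_⟩
    push_cast
    rw [mul_pow, pow_mul, h1, one_pow, one_mul, mul_comm M1 M2, pow_mul, h2, one_pow]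

lemma exists_selfconj {k v r : ℕ} (hr : r.Prime) (hr2 : r ≠ 2) (hv : v + k = k ^ 2 + 1)
    (hrv : r ∣ v) : ∃ q : ℕ, q.Prime ∧ q ∣ k ∧ ∃ j : ℕ, r ∣ q ^ j + 1 := by
  have : Fact r.Prime := ⟨hr⟩
  have hk0 : k ≠ 0 := by
    rintro rfl
    have : v = 1 := by simpa using hv
    rw [this] at hrv
    exact hr.one_lt.ne' (Nat.dvd_one.1 hrv)
  have h1 : (k : ZMod r) ^ 2 - k + 1 = 0 := by
    have h2 := congrArg (Nat.cast : ℕ → ZMod r) hv
    push_cast at h2
    rw [(ZMod.natCast_eq_zero_iff v r).2 hrv] at h2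
    linear_combination -h2
  have h3 : (k : ZMod r) ^ 3 = -1 := by linear_combination ((k : ZMod r) + 1) * h1
  have hne : (-1 : ZMod r) ≠ 1 := by
    have : Fact (2 < r) := ⟨lt_of_le_of_ne hr.two_le (Ne.symm hr2)⟩
    exact ZMod.neg_one_ne_one
  by_contra hcon
  push Not at hcon
  have hodd : ∀ q : ℕ, q.Prime → q ∣ k → ∃ M : ℕ, Odd M ∧ (q : ZMod r) ^ M = 1 := by
    intro q hq hqk
    have hq0 : (q : ZMod r) ≠ 0 := by
      intro h0
      obtain ⟨c, hc⟩ := hqk
      have : (k : ZMod r) = 0 := by rw [hc]; push_cast; rw [h0, zero_mul]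
      rw [this] at h3
      have : (0 : ZMod r) ^ 3 = 0 := by ring
      rw [this] at h3
      have h4 : (1 : ZMod r) = 0 := by linear_combination h3
      exact one_ne_zero h4
    refine ⟨orderOf (q : ZMod r), ?_, pow_orderOf_eq_one _⟩
    rw [← Nat.not_even_iff_odd]
    rintro ⟨u, hu⟩
    have hpos : 0 < orderOf (q : ZMod r) := by
      rw [orderOf_pos_iff]
      rw [isOfFinOrder_iff_pow_eq_one]
      exact ⟨r - 1, by have := hr.two_le; omega, ZMod.pow_card_sub_one_eq_one hq0⟩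
    have hu0 : 0 < u := by omega
    have hult : u < orderOf (q : ZMod r) := by omega
    have hne1 : (q : ZMod r) ^ u ≠ 1 := pow_ne_one_of_lt_orderOf hu0.ne' hult
    have hsq : ((q : ZMod r) ^ u) * ((q : ZMod r) ^ u) = 1 := by
      rw [← pow_add, ← hu, pow_orderOf_eq_one]
    have hm1 : (q : ZMod r) ^ u = -1 := by
      rcases mul_self_eq_one_iff.1 hsq with h | h
      · exact absurd h hne1
      · exact h
    apply hcon q hq hqk u
    rw [← ZMod.natCast_eq_zero_iff]
    push_cast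
    rw [hm1]
    ring
  obtain ⟨M, hM, hkM⟩ := odd_order_of_primes k hk0 hodd
  have h5 : ((k : ZMod r) ^ 3) ^ M = 1 := by rw [← pow_mul, mul_comm, pow_mul, hkM, one_pow]
  rw [h3, hM.neg_one_pow] at h5
  exact hne h5

lemma three_selfconj {v r e : ℕ} (hr : r.Prime) (hr2 : r ≠ 2) (hv : v = r ^ e) (h4 : v % 4 = 3)
    (h3 : v % 3 = 1) : r ∣ 3 ^ (r / 2) + 1 := by
  have : Fact r.Prime := ⟨hr⟩
  have hodd : Odd r := hr.odd_of_ne_two hr2
  have hj : jacobiSym (3 : ℕ) v = -1 := by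
    rw [jacobiSym.quadratic_reciprocity_three_mod_four (a := 3) (b := v) (by norm_num) h4]
    have : jacobiSym (v : ℤ) 3 = 1 := by
      rw [jacobiSym.mod_left]
      have : (v : ℤ) % (3 : ℕ) = 1 := by exact_mod_cast h3
      rw [this, jacobiSym.one_left]
    rw [this]
  rw [hv, jacobiSym.pow_right] at hj
  have hj1 : jacobiSym (3 : ℕ) r = -1 := by
    rcases jacobiSym.trichotomy (3 : ℕ) r with h | h | h
    · rw [h] at hj
      by_cases he : e = 0
      · rw [he] at hj; norm_num at hj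
      · rw [zero_pow he] at hj; norm_num at hj
    · rw [h] at hj; simp at hj
    · exact h
  rw [← jacobiSym.legendreSym.to_jacobiSym] at hj1
  have h5 := legendreSym.eq_pow r (3 : ℕ)
  rw [hj1] at h5
  rw [← ZMod.natCast_eq_zero_iff]
  push_cast
  push_cast at h5
  rw [← h5]
  ring

lemma lift_selfconj {q j r n : ℕ} (hodd : Odd r) (h : r ∣ q ^ j + 1) :
    r ^ (n + 1) ∣ q ^ (j * r ^ n) + 1 := by
  have h1 : (r : ℤ) ∣ (q : ℤ) ^ j - (-1) := by
    have : ((r : ℕ) : ℤ) ∣ ((q ^ j + 1 : ℕ) : ℤ) := Int.natCast_dvd_natCast.2 h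
    push_cast at this
    rw [sub_neg_eq_add]
    exact this
  have h2 := dvd_sub_pow_of_dvd_sub h1 n
  rw [(hodd.pow).neg_one_pow, sub_neg_eq_add, ← pow_mul] at h2
  exact_mod_cast h2

end Pool.Agent.MP_49949b_co
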