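import Mathlib

set_option autoImplicit false
set_option linter.unusedSectionVars false

namespace Pool.Agent.MP_49949b_co

open Finset Configuration

section Closed

variable {P L : Type*} [Membership P L] [ProjectivePlane P L] [Fintype P] [Fintype L]
  [DecidableEq P] [DecidableEq L]

open Classical in
/-- points on a line -/
noncomputable def pts (l : L) : Finset P := Finset.univ.filter (fun p : P => p ∈ l)

open Classical in
/-- lines through a point -/
noncomputable def lns (p : P) : Finset L := Finset.univ.filter (fun l : L => p ∈ l)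

lemma mem_pts (l : L) (p : P) : p ∈ (pts l : Finset P) ↔ p ∈ l := by simp [pts]

lemma mem_lns (l : L) (p : P) : l ∈ (lns p : Finset L) ↔ p ∈ l := by simp [lns]

lemma card_pts (l : L) : (pts l : Finset P).card = ProjectivePlane.order P L + 1 := by
  classical
  rw [← ProjectivePlane.pointCount_eq P l, pointCount, Nat.card_eq_fintype_card,
    Fintype.card_subtype]
  unfold pts
  congr 1

lemma card_lns (p : P) : (lns p : Finset L).card = ProjectivePlane.order P L + 1 := by
  classical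
  rw [← ProjectivePlane.lineCount_eq L p, lineCount, Nat.card_eq_fintype_card,
    Fintype.card_subtype]
  unfold lns
  congr 1

lemma exists_line_through (p q : P) (h : p ≠ q) : ∃ l : L, p ∈ l ∧ q ∈ l :=
  ⟨HasLines.mkLine h, HasLines.mkLine_ax h⟩

lemma exists_point_on (l m : L) (h : l ≠ m) : ∃ p : P, p ∈ l ∧ p ∈ m :=
  ⟨HasPoints.mkPoint h, HasPoints.mkPoint_ax h⟩

lemma line_unique {p q : P} {l m : L} (h : p ≠ q) (h1 : p ∈ l) (h2 : q ∈ l) (h3 : p ∈ m)
    (h4 : q ∈ m) : l = m :=
  (Nondegenerate.eq_or_eq h1 h2 h3 h4).resolve_left h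

lemma point_unique {p q : P} {l m : L} (h : l ≠ m) (h1 : p ∈ l) (h2 : p ∈ m) (h3 : q ∈ l)
    (h4 : q ∈ m) : p = q :=
  (Nondegenerate.eq_or_eq h1 h3 h2 h4).resolve_right h

/-- A closed configuration. -/
structure IsClosedConf (F : Finset P) (E : Finset L) : Prop where
  line_mem : ∀ p ∈ F, ∀ q ∈ F, p ≠ q → ∀ l : L, p ∈ l → q ∈ l → l ∈ E
  point_mem : ∀ l ∈ E, ∀ m ∈ E, l ≠ m → ∀ p : P, p ∈ l → p ∈ m → p ∈ F

variable {F : Finset P} {E : Finset L}

lemma conf_A1 (H : IsClosedConf F E) {l : L} (hl : l ∈ E) {p : P} (hp : p ∈ F) (hpl : p ∉ l) :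
    (F ∩ pts l).card = (E ∩ lns p).card := by
  classical
  have hne : ∀ q ∈ F ∩ pts l, p ≠ q := by
    intro q hq h
    rw [Finset.mem_inter, mem_pts] at hq
    exact hpl (h ▸ hq.2)
  apply Finset.card_bij (fun q hq => HasLines.mkLine (L := L) (hne q hq))
  · intro q hq
    have h1 := HasLines.mkLine_ax (L := L) (hne q hq)
    have hq' := hq
    rw [Finset.mem_inter, mem_pts] at hq'
    rw [Finset.mem_inter, mem_lns]
    exact ⟨H.line_mem p hp q hq'.1 (hne q hq) _ h1.1 h1.2, h1.1⟩
  · intro q hq q' hq' h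
    have h1 := HasLines.mkLine_ax (L := L) (hne q hq)
    have h2 := HasLines.mkLine_ax (L := L) (hne q' hq')
    rw [← h] at h2
    rw [Finset.mem_inter, mem_pts] at hq hq'
    have hlm : l ≠ HasLines.mkLine (L := L) (hne q (by rw [Finset.mem_inter, mem_pts]; exact hq)) := by
      intro h3
      exact hpl (h3 ▸ h1.1)
    exact point_unique hlm hq.2 h1.2 hq'.2 h2.2
  · intro m hm
    rw [Finset.mem_inter, mem_lns] at hm
    have hlm : l ≠ m := by
      rintro rfl
      exact hpl hm.2
    obtain ⟨q, hql, hqm⟩ := exists_point_on (P := P) l m hlm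
    have hqF : q ∈ F := H.point_mem l hl m hm.1 hlm q hql hqm
    have hq : q ∈ F ∩ pts l := by rw [Finset.mem_inter, mem_pts]; exact ⟨hqF, hql⟩
    refine ⟨q, hq, ?_⟩
    have h1 := HasLines.mkLine_ax (L := L) (hne q hq)
    exact line_unique (hne q hq) h1.1 h1.2 hm.2 hqm

lemma conf_A2 (H : IsClosedConf F E) (h2 : ∀ l : L, 2 ≤ (F \ pts l).card) {l l' : L} (hl : l ∈ E)
    (hl' : l' ∈ E) : (F ∩ pts l).card = (F ∩ pts l').card := by
  classical
  by_cases hll : l = l'
  · rw [hll]
  by_cases hex : ∃ p ∈ F, p ∉ l ∧ p ∉ l'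
  · obtain ⟨p, hp, hpl, hpl'⟩ := hex
    rw [conf_A1 H hl hp hpl, conf_A1 H hl' hp hpl']
  exfalso
  push Not at hex
  obtain ⟨a, ha, a', ha', haa⟩ := Finset.one_lt_card.1 (lt_of_lt_of_le one_lt_two (h2 l'))
  obtain ⟨b, hb, b', hb', hbb⟩ := Finset.one_lt_card.1 (lt_of_lt_of_le one_lt_two (h2 l))
  rw [Finset.mem_sdiff, mem_pts] at ha ha' hb hb'
  have hal : a ∈ l := by
    by_contra h
    exact ha.2 (hex a ha.1 h)
  have hal' : a' ∈ l := by
    by_contra h
    exact ha'.2 (hex a' ha'.1 h)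
  have hbl : b ∈ l' := hex b hb.1 hb.2
  have hbl' : b' ∈ l' := hex b' hb'.1 hb'.2
  have hab : a ≠ b := by rintro rfl; exact hb.2 hal
  have hab' : a' ≠ b' := by rintro rfl; exact hb'.2 hal'
  obtain ⟨m, ham, hbm⟩ := exists_line_through (L := L) a b hab
  obtain ⟨m', ham', hbm'⟩ := exists_line_through (L := L) a' b' hab'
  have hmE : m ∈ E := H.line_mem a ha.1 b hb.1 hab m ham hbm
  have hmE' : m' ∈ E := H.line_mem a' ha'.1 b' hb'.1 hab' m' ham' hbm'
  have hml : m ≠ l := by rintro rfl; exact hb.2 hbm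
  have hml' : m' ≠ l := by rintro rfl; exact hb'.2 hbm'
  have hml2 : m ≠ l' := by rintro rfl; exact ha.2 ham
  have hml2' : m' ≠ l' := by rintro rfl; exact ha'.2 ham'
  have hmm : m ≠ m' := by
    rintro rfl
    exact hml (line_unique haa ham ham' hal hal')
  obtain ⟨z, hzm, hzm'⟩ := exists_point_on (P := P) m m' hmm
  have hzF : z ∈ F := H.point_mem m hmE m' hmE' hmm z hzm hzm'
  by_cases hzl : z ∈ l
  · have h3 : z = a := point_unique hml hzm hzl ham hal
    have h4 : z = a' := point_unique hml' hzm' hzl ham' hal'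
    exact haa (h3.symm.trans h4)
  · have hzl' := hex z hzF hzl
    have h3 : z = b := point_unique hml2 hzm hzl' hbm hbl
    have h4 : z = b' := point_unique hml2' hzm' hzl' hbm' hbl'
    exact hbb (h3.symm.trans h4)

/-- A proper closed configuration, not almost contained in a line, is a subplane. -/
lemma conf_main (H : IsClosedConf F E) (h2 : ∀ l : L, 2 ≤ (F \ pts l).card)
    (hF : F ≠ Finset.univ) :
    ∃ m : ℕ, F.card = m ^ 2 + m + 1 ∧ m ^ 2 ≤ ProjectivePlane.order P L ∧
      (∀ l ∈ E, (F ∩ pts l).card = m + 1) ∧ E.Nonempty := by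
  classical
  set n := ProjectivePlane.order P L with hn
  obtain ⟨l00⟩ : Nonempty L := by
    obtain ⟨p₁, p₂, p₃, l₁, l₂, l₃, h⟩ := ProjectivePlane.exists_config (P := P) (L := L)
    exact ⟨l₁⟩
  -- lines avoiding a point
  have hav : ∀ p ∈ F, ∃ l ∈ E, p ∉ l := by
    intro p hp
    obtain ⟨a, ha, a', ha', haa⟩ := Finset.one_lt_card.1 (lt_of_lt_of_le one_lt_two (h2 l00))
    have : ∃ a ∈ F, a ≠ p := by
      by_cases h : a = p
      · refine ⟨a', (Finset.mem_sdiff.1 ha').1, ?_⟩
        rintro rfl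
        exact haa h
      · exact ⟨a, (Finset.mem_sdiff.1 ha).1, h⟩
    obtain ⟨a, ha, hap⟩ := this
    obtain ⟨l, hal, hpl⟩ := exists_line_through (L := L) a p hap
    obtain ⟨b, hb, -⟩ := Finset.one_lt_card.1 (lt_of_lt_of_le one_lt_two (h2 l))
    rw [Finset.mem_sdiff, mem_pts] at hb
    have hab : a ≠ b := by rintro rfl; exact hb.2 hal
    obtain ⟨m, ham, hbm⟩ := exists_line_through (L := L) a b hab
    refine ⟨m, H.line_mem a ha b hb.1 hab m ham hbm, ?_⟩
    intro hpm
    have : m = l := line_unique hap ham hpm hal hpl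
    exact hb.2 (this ▸ hbm)
  have hFne : F.Nonempty := by
    obtain ⟨a, ha, -⟩ := Finset.one_lt_card.1 (lt_of_lt_of_le one_lt_two (h2 l00))
    exact ⟨a, (Finset.mem_sdiff.1 ha).1⟩
  obtain ⟨p0, hp0⟩ := hFne
  obtain ⟨l0, hl0, hpl0⟩ := hav p0 hp0
  have hpos : ∀ l ∈ E, 1 ≤ (F ∩ pts l).card := by
    -- through the point p0 passes a line joining to another point of F
    intro l hl
    rw [conf_A2 H h2 hl hl0, conf_A1 H hl0 hp0 hpl0]
    obtain ⟨a, ha, a', ha', haa⟩ := Finset.one_lt_card.1 (lt_of_lt_of_le one_lt_two (h2 l00))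
    have : ∃ a ∈ F, a ≠ p0 := by
      by_cases h : a = p0
      · refine ⟨a', (Finset.mem_sdiff.1 ha').1, ?_⟩
        rintro rfl
        exact haa h
      · exact ⟨a, (Finset.mem_sdiff.1 ha).1, h⟩
    obtain ⟨a, ha, hap⟩ := this
    obtain ⟨l, hal, hpl⟩ := exists_line_through (L := L) a p0 hap
    apply Finset.card_pos.2
    refine ⟨l, ?_⟩
    rw [Finset.mem_inter, mem_lns]
    exact ⟨H.line_mem a ha p0 hp0 hap l hal hpl, hpl⟩
  obtain ⟨m, hm⟩ : ∃ m, (F ∩ pts l0).card = m + 1 :=
    ⟨(F ∩ pts l0).card - 1, by have := hpos l0 hl0; omega⟩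
  have hfl : ∀ l ∈ E, (F ∩ pts l).card = m + 1 := fun l hl => by
    rw [conf_A2 H h2 hl hl0, hm]
  have hgp : ∀ p ∈ F, (E ∩ lns p).card = m + 1 := by
    intro p hp
    obtain ⟨l, hl, hpl⟩ := hav p hp
    rw [← conf_A1 H hl hp hpl, hfl l hl]
  -- counting F
  have hcard : F.card = m ^ 2 + m + 1 := by
    have h3 : (F.erase p0).card = ∑ l ∈ E ∩ lns p0, ((F ∩ pts l).erase p0).card := by
      rw [← Finset.card_biUnion]
      · congr 1
        ext q
        simp only [Finset.mem_erase, Finset.mem_biUnion, Finset.mem_inter, mem_lns, mem_pts]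
        constructor
        · rintro ⟨hq, hqF⟩
          obtain ⟨l, hql, hpl⟩ := exists_line_through (L := L) q p0 hq
          exact ⟨l, ⟨H.line_mem q hqF p0 hp0 hq l hql hpl, hpl⟩, hq, hqF, hql⟩
        · rintro ⟨l, -, hq, hqF, -⟩
          exact ⟨hq, hqF⟩
      · intro l hl l' hl' hll
        rw [Function.onFun, Finset.disjoint_left]
        intro q hq hq'
        simp only [Finset.mem_erase, Finset.mem_inter, mem_pts] at hq hq'
        rw [Finset.mem_coe, Finset.mem_inter, mem_lns] at hl hl'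
        exact hll (line_unique hq.1 hq.2.2 hl.2 hq'.2.2 hl'.2)
    have h4 : ∀ l ∈ E ∩ lns p0, ((F ∩ pts l).erase p0).card = m := by
      intro l hl
      rw [Finset.mem_inter, mem_lns] at hl
      rw [Finset.card_erase_of_mem (by rw [Finset.mem_inter, mem_pts]; exact ⟨hp0, hl.2⟩),
        hfl l hl.1]
      omega
    rw [Finset.sum_congr rfl h4, Finset.sum_const, hgp p0 hp0, smul_eq_mul,
      Finset.card_erase_of_mem hp0] at h3
    have h5 : 0 < F.card := Finset.card_pos.2 ⟨p0, hp0⟩
    have h6 : F.card = (m + 1) * m + 1 := by omega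
    rw [h6]; ring
  refine ⟨m, hcard, ?_, hfl, ⟨l0, hl0⟩⟩
  -- the bound
  have hex : ∃ l ∈ E, ∃ x : P, x ∈ l ∧ x ∉ F := by
    by_contra hcon
    push Not at hcon
    have h3 : F ∩ pts l0 = pts l0 := by
      rw [Finset.inter_eq_right]
      intro x hx
      rw [mem_pts] at hx
      exact hcon l0 hl0 x hx
    rw [h3, card_pts] at hm
    apply hF
    apply Finset.eq_univ_of_card
    rw [hcard, ProjectivePlane.card_points P L]
    have : m = ProjectivePlane.order P L := by omega
    rw [this]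
  obtain ⟨l, hl, x, hxl, hxF⟩ := hex
  have h5 : (F \ pts l).card = m ^ 2 := by
    have := Finset.card_sdiff_add_card_inter F (pts l)
    rw [hfl l hl, hcard] at this
    omega
  rw [← h5]
  have h6 : ((lns x : Finset L).erase l).card = n := by
    rw [Finset.card_erase_of_mem ((mem_lns l x).2 hxl), card_lns]
    omega
  rw [← h6]
  have hne : ∀ y ∈ F \ pts l, x ≠ y := by
    intro y hy h
    rw [Finset.mem_sdiff] at hy
    exact hxF (h ▸ hy.1)
  apply Finset.card_le_card_of_injOn (fun y => if h : x ≠ y then HasLines.mkLine (L := L) h else l)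
  · intro y hy
    have hxy := hne y hy
    have h1 := HasLines.mkLine_ax (L := L) hxy
    simp only [hxy, ne_eq, not_false_eq_true, dif_pos]
    rw [Finset.mem_coe, Finset.mem_erase, mem_lns]
    refine ⟨?_, h1.1⟩
    intro h
    rw [h] at h1
    rw [Finset.mem_coe, Finset.mem_sdiff, mem_pts] at hy
    exact hy.2 h1.2
  · intro y hy y' hy' hyy
    have hxy := hne y hy
    have hxy' := hne y' hy'
    simp only [hxy, hxy', ne_eq, not_false_eq_true, dif_pos] at hyy
    have h1 := HasLines.mkLine_ax (L := L) hxy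
    have h1' := HasLines.mkLine_ax (L := L) hxy'
    by_contra hne'
    rw [← hyy] at h1'
    rw [Finset.mem_coe, Finset.mem_sdiff, mem_pts] at hy hy'
    have hE : HasLines.mkLine (L := L) hxy ∈ E := H.line_mem y hy.1 y' hy'.1 hne' _ h1.2 h1'.2
    have hlne : HasLines.mkLine (L := L) hxy ≠ l := by
      intro h
      exact hy.2 (h ▸ h1.2)
    exact hxF (H.point_mem _ hE l hl hlne x h1.1 hxl)

end Closed

end Pool.Agent.MP_49949b_co
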