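import Pool.Agent.MP_49949b_co.KeyLemmas
import Pool.Agent.MP_49949b_co.Arith

set_option autoImplicit false
set_option linter.unusedSectionVars false

namespace Pool.Agent.MP_49949b_co

open Finset

section PP

variable {G : Type*} [CommGroup G] [Fintype G] [DecidableEq G]
variable {ι : Type*} [Fintype ι] {k v : ℕ} {N : ι → Subgroup G} {D : Finset G}

lemma TypeH.v_ne_zero (H : TypeH k v N D) : v ≠ 0 := by
  have h1 := H.hv
  have h2 := H.hk
  rintro rfl
  nlinarith

lemma pp_bound (H : TypeH k v N D) (r : ℕ) [hr : Fact r.Prime] (hrv : r ∣ v) :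
    2 * k ≤ r ^ (v.factorization r) + 1 := by
  classical
  set e := v.factorization r with he
  obtain ⟨Q⟩ : Nonempty (Sylow r G) := inferInstance
  have hQcard : (fs (Q : Subgroup G)).card = r ^ (2 * e) := by
    rw [card_fs]
    have := Q.card_eq_multiplicity
    rw [this, Nat.card_eq_fintype_card, H.hG, Nat.factorization_pow]
    simp [he]
  have hex : ∀ i, ∃ K : Subgroup G, K ≤ N i ∧ Nat.card K = r ^ e := by
    intro i
    have hdvd : r ^ e ∣ Nat.card (N i) := by
      rw [← card_fs, H.hN]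
      exact Nat.ordProj_dvd v r
    obtain ⟨K, hK⟩ := Sylow.exists_subgroup_card_pow_prime r hdvd
    refine ⟨K.map (N i).subtype, Subgroup.map_subtype_le K, ?_⟩
    rw [← hK]
    exact Nat.card_congr (K.equivMapOfInjective _ (N i).subtype_injective).symm.toEquiv
  choose K hKN hKcard using hex
  have hKQ : ∀ i, K i ≤ (Q : Subgroup G) := by
    intro i
    obtain ⟨Q', hQ'⟩ := (IsPGroup.of_card (hKcard i)).exists_le_sylow
    have hnorm : (Q : Subgroup G).Normal := inferInstance
    have huniq := Sylow.unique_of_normal Q hnorm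
    have : Q' = Q := by
      rw [huniq.uniq Q', huniq.uniq Q]
    rw [← this]
    exact hQ'
  have hsub : (Finset.univ.biUnion (fun i => (fs (K i)).erase 1)) ⊆ (fs (Q : Subgroup G)).erase 1 := by
    intro g hg
    simp only [Finset.mem_biUnion, Finset.mem_univ, true_and, Finset.mem_erase, mem_fs] at hg
    obtain ⟨i, hg1, hgi⟩ := hg
    simp only [Finset.mem_erase, mem_fs]
    exact ⟨hg1, hKQ i hgi⟩
  have hcard := Finset.card_le_card hsub
  rw [Finset.card_biUnion] at hcard
  · have h1 : ∀ i, ((fs (K i)).erase 1).card = r ^ e - 1 := by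
      intro i
      rw [Finset.card_erase_of_mem ((mem_fs _ _).2 (K i).one_mem), card_fs, hKcard]
    simp only [h1, Finset.sum_const, Finset.card_univ, H.hι, smul_eq_mul] at hcard
    rw [Finset.card_erase_of_mem ((mem_fs _ _).2 (Q : Subgroup G).one_mem), hQcard] at hcard
    have he1 : 1 ≤ e := by
      rw [he]
      exact hr.out.factorization_pos_of_dvd H.v_ne_zero hrv
    have hre : 2 ≤ r ^ e := by
      calc 2 ≤ r := hr.out.two_le
        _ ≤ r ^ e := Nat.le_self_pow (by omega) r
    obtain ⟨x, hx⟩ := Nat.exists_eq_add_of_le hre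
    have h2 : r ^ (2 * e) = (r ^ e) ^ 2 := by rw [← pow_mul, mul_comm]
    rw [h2, hx] at hcard
    rw [hx]
    have h3 : 2 + x - 1 = x + 1 := by omega
    have h4 : (2 + x) ^ 2 - 1 = (x + 1) * (x + 3) := by
      have : (2 + x) ^ 2 = (x + 1) * (x + 3) + 1 := by ring
      omega
    rw [h3, h4, mul_comm (2 * k)] at hcard
    have := Nat.le_of_mul_le_mul_left hcard (by omega)
    omega
  · intro i _ j _ hij
    rw [Function.onFun, Finset.disjoint_left]
    intro g hg hg'
    simp only [Finset.mem_erase, mem_fs] at hg hg'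
    exact hg.1 (H.hdisj i j hij g (hKN i hg.2) (hKN j hg'.2))

lemma exists_pp (H : TypeH k v N D) : ∃ r e : ℕ, r.Prime ∧ v = r ^ e := by
  have h1 := H.hv
  have h2 := H.hk
  have hv1 : v ≠ 1 := by
    rintro rfl
    nlinarith
  set r := v.minFac with hr
  have hrp : r.Prime := Nat.minFac_prime hv1
  have hrv : r ∣ v := Nat.minFac_dvd v
  have : Fact r.Prime := ⟨hrp⟩
  refine ⟨r, v.factorization r, hrp, ?_⟩
  have hdecomp := Nat.ordProj_mul_ordCompl_eq_self v r
  set w := v / r ^ v.factorization r with hw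
  by_cases hw1 : w = 1
  · rw [hw1, mul_one] at hdecomp
    exact hdecomp.symm
  exfalso
  set r' := w.minFac with hr'
  have hrp' : r'.Prime := Nat.minFac_prime hw1
  have hrw' : r' ∣ w := Nat.minFac_dvd w
  have hwv : w ∣ v := ⟨r ^ v.factorization r, by rw [mul_comm]; exact hdecomp.symm⟩
  have hrv' : r' ∣ v := hrw'.trans hwv
  have : Fact r'.Prime := ⟨hrp'⟩
  have hne : r ≠ r' := by
    intro h
    have h3 : ¬ r ∣ w := Nat.not_dvd_ordCompl hrp H.v_ne_zero
    exact h3 (h ▸ hrw')
  have hcop : Nat.Coprime (r ^ v.factorization r) (r' ^ v.factorization r') :=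
    Nat.Coprime.pow _ _ ((Nat.coprime_primes hrp hrp').2 hne)
  have hmul : r ^ v.factorization r * r' ^ v.factorization r' ∣ v :=
    hcop.mul_dvd_of_dvd_of_dvd (Nat.ordProj_dvd v r) (Nat.ordProj_dvd v r')
  have hle := Nat.le_of_dvd (Nat.pos_of_ne_zero H.v_ne_zero) hmul
  have b1 := pp_bound H r hrv
  have b2 := pp_bound H r' hrv'
  have b3 : (2 * k - 1) * (2 * k - 1) ≤ v :=
    le_trans (Nat.mul_le_mul (by omega) (by omega)) hle
  obtain ⟨k', hk'⟩ := Nat.exists_eq_add_of_le h2
  have h5 : 2 * k - 1 = 2 * k' + 5 := by omega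
  rw [h5] at b3
  rw [hk'] at h1
  nlinarith

/-- The algebraic data of a plane of type (h) does not exist. -/
theorem typeH_false (H : TypeH k v N D) : False := by
  obtain ⟨r, e, hr, hve⟩ := exists_pp H
  have : Fact r.Prime := ⟨hr⟩
  have h1 := H.hv
  have h2 := H.hk
  have hv1 : v ≠ 1 := by
    rintro rfl
    nlinarith
  have he : e ≠ 0 := by
    rintro rfl
    exact hv1 (by rw [hve, pow_zero])
  have hrv : r ∣ v := by rw [hve]; exact dvd_pow_self r he
  -- v is odd
  have hvodd : v % 2 = 1 := by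
    have h3 : k ^ 2 % 2 = k % 2 := by
      rcases Nat.even_or_odd k with hk | hk
      · obtain ⟨c, rfl⟩ := hk
        rw [show (c + c) ^ 2 = 2 * (2 * c ^ 2) by ring, show c + c = 2 * c by ring]
        omega
      · obtain ⟨c, rfl⟩ := hk
        rw [show (2 * c + 1) ^ 2 = 2 * (2 * c ^ 2 + 2 * c) + 1 by ring]
        omega
    omega
  have hr2 : r ≠ 2 := by
    rintro rfl
    omega
  have hrodd : Odd r := hr.odd_of_ne_two hr2
  -- transfer of self-conjugacy to the group
  have htransfer : ∀ q j : ℕ, r ∣ q ^ j + 1 → ∃ m : ℕ, 1 ≤ m ∧ ∀ g : G, g ^ (q ^ m) = g⁻¹ := by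
    intro q j hqj
    have hj : j ≠ 0 := by
      rintro rfl
      rw [pow_zero] at hqj
      exact hr2 ((Nat.prime_dvd_prime_iff_eq hr Nat.prime_two).1 hqj)
    refine ⟨j * r ^ (2 * e), Nat.one_le_iff_ne_zero.2 (mul_ne_zero hj (pow_ne_zero _ hr.pos.ne')), ?_⟩
    intro g
    have h3 : r ^ (2 * e + 1) ∣ q ^ (j * r ^ (2 * e)) + 1 := lift_selfconj hrodd hqj
    have h4 : r ^ (2 * e) ∣ q ^ (j * r ^ (2 * e)) + 1 := (pow_dvd_pow r (by omega)).trans h3
    have h5 : g ^ (r ^ (2 * e)) = 1 := by
      have h6 : r ^ (2 * e) = Fintype.card G := by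
        rw [H.hG, hve, ← pow_mul, mul_comm]
      rw [h6]
      exact pow_card_eq_one
    obtain ⟨c, hc⟩ := h4
    rw [eq_inv_iff_mul_eq_one, ← pow_succ, hc, pow_mul, h5, one_pow]
  obtain ⟨q, hq, hqk, j, hqj⟩ := exists_selfconj hr hr2 h1 hrv
  have : Fact q.Prime := ⟨hq⟩
  obtain ⟨m, hm1, hm⟩ := htransfer q j hqj
  by_cases hq2 : q = 2
  · subst hq2
    by_cases h4 : 4 ∣ k
    · exact key1 H 2 2 m hm1 hm (by simpa using h4) (by norm_num)
    · -- k ≡ 2 mod 4
      have hk4 : k % 4 = 2 := by omega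
      have hv4 : v % 4 = 3 := by
        obtain ⟨c, hc⟩ : ∃ c, k = 4 * c + 2 := ⟨k / 4, by omega⟩
        subst hc
        have : (4 * c + 2) ^ 2 = 4 * (4 * c ^ 2 + 4 * c + 1) := by ring
        omega
      -- 3 does not divide v
      have hv3 : v % 3 ≠ 0 := by
        intro hv3
        have h3v : 3 ∣ r ^ e := by rw [← hve]; exact Nat.dvd_of_mod_eq_zero hv3
        have h3r : r = 3 := by
          have := (Nat.prime_three.dvd_of_dvd_pow h3v)
          exact ((Nat.prime_dvd_prime_iff_eq Nat.prime_three hr).1 this).symm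
        subst h3r
        -- v is not divisible by 9
        have hv9 : v % 9 ≠ 0 := by
          obtain ⟨c, hc⟩ : ∃ c, k = 9 * c + k % 9 := ⟨k / 9, by omega⟩
          have hlt : k % 9 < 9 := Nat.mod_lt _ (by norm_num)
          generalize k % 9 = d at hc hlt
          subst hc
          have : (9 * c + d) ^ 2 = 9 * (9 * c ^ 2 + 2 * c * d) + d ^ 2 := by ring
          rw [this] at h1
          intro h9
          interval_cases d <;> omega
        have he1 : e = 1 := by
          by_contra hne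
          apply hv9
          have : 3 ^ 2 ∣ 3 ^ e := pow_dvd_pow 3 (by omega)
          rw [← hve] at this
          exact Nat.mod_eq_zero_of_dvd (by simpa using this)
        subst he1
        nlinarith
      have hv31 : v % 3 = 1 ∧ (3 ∣ k ∨ 3 ∣ k - 1) := by
        obtain ⟨c, hc⟩ : ∃ c, k = 3 * c + k % 3 := ⟨k / 3, by omega⟩
        have hlt : k % 3 < 3 := Nat.mod_lt _ (by norm_num)
        generalize k % 3 = d at hc hlt
        subst hc
        have : (3 * c + d) ^ 2 = 3 * (3 * c ^ 2 + 2 * c * d) + d ^ 2 := by ring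
        rw [this] at h1
        interval_cases d <;> omega
      have h3c := three_selfconj hr hr2 hve hv4 hv31.1
      obtain ⟨m', hm1', hm'⟩ := htransfer 3 _ h3c
      have : Fact (Nat.Prime 3) := ⟨Nat.prime_three⟩
      rcases hv31.2 with h | h
      · exact key1 H 3 1 m' hm1' hm' (by simpa using h) (by norm_num)
      · exact key2 H 3 m' hm1' hm' h
  · have hq3 : 3 ≤ q := by
      have := hq.two_le
      omega
    exact key1 H q 1 m hm1 hm (by simpa using hqk) (by simpa using hq3)

end PP

end Pool.Agent.MP_49949b_co
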