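import Pool.Agent.MP_49949b_co.Lines
import Pool.Agent.MP_49949b_co.PrimePower

set_option autoImplicit false
set_option linter.unusedSectionVars false

namespace Pool.Agent.MP_49949b_co

open Finset Configuration

section Fin

variable {P L : Type*} [Membership P L] [ProjectivePlane P L] [Fintype P] [Fintype L]
  [DecidableEq P] [DecidableEq L]
variable {G : Type*} [Group G] [Fintype G] [MulAction G P] [MulAction G L]
variable {k v : ℕ}
variable {ω₀ : MulAction.orbitRel.Quotient G P}

/-- The unique point of a regular line on a nonregular orbit. -/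
lemma exists_unique_pt (S : Setup P L G k v) (h0 : (Orb ω₀).card = v ^ 2)
    (h1 : ∀ ω : MulAction.orbitRel.Quotient G P, ω ≠ ω₀ → (Orb ω).card = v)
    {l : L} (hl : l ∈ ZL ω₀ L)
    {ω : MulAction.orbitRel.Quotient G P} (hω : ω ≠ ω₀) :
    ∃ c : P, c ∈ Orb ω ∧ c ∈ l ∧ ∀ q ∈ Orb ω, q ∈ l → q = c := by
  obtain ⟨c, hc⟩ := Finset.card_eq_one.1 (ZL_inter_eq_one S h0 h1 hω hl)
  have h2 : c ∈ Orb ω ∩ pts l := by rw [hc]; exact Finset.mem_singleton_self c
  rw [Finset.mem_inter, mem_pts] at h2
  refine ⟨c, h2.1, h2.2, ?_⟩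
  intro q hq hql
  have : q ∈ Orb ω ∩ pts l := by rw [Finset.mem_inter, mem_pts]; exact ⟨hq, hql⟩
  rw [hc] at this
  exact Finset.mem_singleton.1 this

/-- A regular line has trivial stabilizer. -/
lemma line_free (S : Setup P L G k v) (h0 : (Orb ω₀).card = v ^ 2)
    (h1 : ∀ ω : MulAction.orbitRel.Quotient G P, ω ≠ ω₀ → (Orb ω).card = v)
    {l : L} (hl : l ∈ ZL ω₀ L) {g : G} (hg : g • l = l) : g = 1 := by
  classical
  obtain ⟨ω, hω, -⟩ := exists_classes S ω₀ ∅ (by simp)
  obtain ⟨ω', hω', hT'⟩ := exists_classes S ω₀ {ω} (by simp)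
  simp only [Finset.mem_singleton] at hT'
  have key : ∀ ω : MulAction.orbitRel.Quotient G P, ω ≠ ω₀ → g ∈ Nst ω := by
    intro ω hω
    obtain ⟨c, hc, hcl, huniq⟩ := exists_unique_pt S h0 h1 hl hω
    have h3 : g • c ∈ l := by
      have := (S.inc g c l).1 hcl
      rwa [hg] at this
    have h4 := huniq _ (smul_mem_Orb ω g c hc) h3
    exact (mem_Nst_iff S hc g).2 h4
  exact Nst_disjoint S h1 hω hω' (Ne.symm hT') (key ω hω) (key ω' hω')

open Classical in
/-- The difference set. -/
noncomputable def DD (G : Type*) [Group G] [Fintype G] [MulAction G P] (o : P) (l : L) : Finset G :=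
  Finset.univ.filter (fun g : G => g • o ∈ l)

lemma mem_DD (o : P) (l : L) (g : G) : g ∈ DD G o l ↔ g • o ∈ l := by simp [DD]

lemma card_DD (S : Setup P L G k v) (h0 : (Orb ω₀).card = v ^ 2)
    (h1 : ∀ ω : MulAction.orbitRel.Quotient G P, ω ≠ ω₀ → (Orb ω).card = v)
    {l : L} (hl : l ∈ ZL ω₀ L) {o : P} (ho : o ∈ Orb ω₀) :
    (DD G o l).card + 2 * k = k ^ 2 + 1 := by
  classical
  have hfin : Fintype (MulAction.orbitRel.Quotient G P) := Fintype.ofFinite _
  have hcardΩ : (Finset.univ : Finset (MulAction.orbitRel.Quotient G P)).card = 2 * k + 1 := by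
    rw [Finset.card_univ, ← Nat.card_eq_fintype_card, S.orb]
  have e1 : (DD G o l).card = (Orb ω₀ ∩ pts l).card := by
    apply Finset.card_bij (fun g _ => g • o)
    · intro g hg
      rw [mem_DD] at hg
      rw [Finset.mem_inter, mem_pts]
      exact ⟨smul_mem_Orb ω₀ g o ho, hg⟩
    · intro g _ g' _ h
      have h3 : (g'⁻¹ * g) • o = o := by rw [mul_smul, h, inv_smul_smul]
      have h4 := regular_free S h0 ho h3
      exact (inv_mul_eq_one.1 h4).symm
    · intro p hp
      rw [Finset.mem_inter, mem_pts] at hp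
      obtain ⟨g, hg⟩ := exists_smul_of_mem_Orb ho hp.1
      exact ⟨g, by rw [mem_DD, hg]; exact hp.2, hg⟩
  have e2 : (pts l : Finset P).card =
      ∑ ω : MulAction.orbitRel.Quotient G P, (Orb ω ∩ pts l).card := by
    rw [Finset.card_eq_sum_card_fiberwise (f := fun p => (Quotient.mk'' p :
      MulAction.orbitRel.Quotient G P)) (t := Finset.univ)
      (fun _ _ => Finset.mem_coe.2 (Finset.mem_univ _))]
    apply Finset.sum_congr rfl
    intro ω _
    congr 1
    ext p
    rw [Finset.mem_filter, Finset.mem_inter, mem_Orb]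
    tauto
  rw [card_pts, S.order, ← Finset.add_sum_erase _ _ (Finset.mem_univ ω₀),
    Finset.sum_congr rfl (fun ω hω => ZL_inter_eq_one S h0 h1 (Finset.mem_erase.1 hω).1 hl),
    Finset.sum_const, Finset.card_erase_of_mem (Finset.mem_univ _), hcardΩ, ← e1] at e2
  simp only [smul_eq_mul, mul_one] at e2
  omega

/-- There is no plane satisfying the hypotheses. -/
theorem setup_false (S : Setup P L G k v) : False := by
  classical
  obtain ⟨ω₀, h0, h1⟩ := exists_regular S
  have hcomm := group_comm S h1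
  have hZ : (ZL ω₀ L).Nonempty := by
    rw [← Finset.card_pos, card_ZL S h0 h1]
    have := v_facts S
    exact pow_pos (by omega) 2
  obtain ⟨l, hl⟩ := hZ
  obtain ⟨o, ho⟩ := exists_mem_Orb ω₀
  let inst : CommGroup G := { (inferInstance : Group G) with mul_comm := hcomm }
  have hfin : Fintype (MulAction.orbitRel.Quotient G P) := Fintype.ofFinite _
  have hcardΩ : Fintype.card (MulAction.orbitRel.Quotient G P) = 2 * k + 1 := by
    rw [← Nat.card_eq_fintype_card, S.orb]
  let ι := {ω : MulAction.orbitRel.Quotient G P // ω ≠ ω₀}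
  let N : ι → Subgroup G := fun ω => Nst ω.1
  have H : TypeH k v N (DD G o l) := by
    refine ⟨S.hv, S.hk, ?_, S.card, ?_, ?_, card_DD S h0 h1 hl ho, ?_, ?_⟩
    · change Fintype.card {ω : MulAction.orbitRel.Quotient G P // ω ≠ ω₀} = 2 * k
      rw [Fintype.card_subtype_compl, hcardΩ]
      simp
    · intro i
      rw [card_fs]
      exact card_Nst S h1 i.2
    · intro i j hij g hg hg'
      exact Nst_disjoint S h1 i.2 j.2 (fun h => hij (Subtype.ext h)) hg hg'
    · intro i x hx y hy hxy
      rw [mem_DD] at hx hy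
      obtain ⟨c, hc, hcl, huniq⟩ := exists_unique_pt S h0 h1 hl i.2
      have hh : (x * y⁻¹) • c = c := (mem_Nst_iff S hc _).1 hxy
      have hxy' : x • o = (x * y⁻¹) • (y • o) := by
        rw [smul_smul, inv_mul_cancel_right]
      have h3 : x • o ∈ (x * y⁻¹) • l := by
        rw [hxy']
        exact (S.inc _ _ _).1 hy
      have h4 : c ∈ (x * y⁻¹) • l := by
        have := (S.inc (x * y⁻¹) c l).1 hcl
        rwa [hh] at this
      have h5 : x • o ≠ c := by
        intro h
        have := smul_mem_Orb ω₀ x o ho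
        rw [h] at this
        exact i.2 (Orb_disjoint hc this)
      have h6 : (x * y⁻¹) • l = l := line_unique h5 h3 h4 hx hcl
      have h7 := line_free S h0 h1 hl h6
      exact mul_inv_eq_one.1 h7
    · intro h hh1 hhN
      have hne : h • l ≠ l := fun h2 => hh1 (line_free S h0 h1 hl h2)
      obtain ⟨z, hzl, hzhl⟩ := exists_point_on (P := P) (h • l) l hne
      have hz0 : z ∈ Orb ω₀ := by
        by_contra hz
        set ω : MulAction.orbitRel.Quotient G P := Quotient.mk'' z with hω
        have hzω : z ∈ Orb ω := (mem_Orb _ _).2 rfl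
        have hωne : ω ≠ ω₀ := by
          intro h2
          rw [h2] at hzω
          exact hz hzω
        obtain ⟨c, hc, hcl, huniq⟩ := exists_unique_pt S h0 h1 hl hωne
        have h3 : z = c := huniq z hzω hzhl
        have h4 : h⁻¹ • z ∈ l := by
          rw [S.inc h, smul_inv_smul]
          exact hzl
        have h5 : h⁻¹ • z = c := huniq _ (smul_mem_Orb ω h⁻¹ z hzω) h4
        apply hhN ⟨ω, hωne⟩
        change h ∈ Nst ω
        rw [mem_Nst_iff S hc]
        nth_rewrite 1 [← h5]
        rw [smul_inv_smul, h3]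
      obtain ⟨x, hx⟩ := exists_smul_of_mem_Orb ho hz0
      rw [Finset.card_eq_one]
      refine ⟨(x, h⁻¹ * x), ?_⟩
      ext ⟨a, b⟩
      simp only [Finset.mem_filter, Finset.mem_product, Finset.mem_singleton, Prod.mk.injEq, mem_DD]
      constructor
      · rintro ⟨⟨ha, hb⟩, hab⟩
        have h3 : a • o ∈ h • l := by
          have h4 : a • o = h • (b • o) := by
            rw [← hab, smul_smul, inv_mul_cancel_right]
          rw [h4]
          exact (S.inc _ _ _).1 hb
        have h4 : a • o = z := point_unique hne h3 ha hzl hzhl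
        have h5 : (x⁻¹ * a) • o = o := by
          rw [mul_smul, h4, ← hx, inv_smul_smul]
        have h6 := regular_free S h0 ho h5
        have h7 : x = a := inv_mul_eq_one.1 h6
        refine ⟨h7.symm, ?_⟩
        rw [h7, ← hab]
        group
      · rintro ⟨rfl, rfl⟩
        refine ⟨⟨?_, ?_⟩, ?_⟩
        · rw [hx]; exact hzhl
        · rw [mul_smul, hx, S.inc h, smul_inv_smul]
          exact hzl
        · group
  exact typeH_false H

end Fin

end Pool.Agent.MP_49949b_co
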