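import Pool.Agent.MP_49949b_co.Closed

set_option autoImplicit false
set_option linter.unusedSectionVars false

namespace Pool.Agent.MP_49949b_co

open Finset Configuration

section Act

variable {P L : Type*} [Membership P L] [ProjectivePlane P L] [Fintype P] [Fintype L]
  [DecidableEq P] [DecidableEq L]
variable {G : Type*} [Group G] [Fintype G] [MulAction G P] [MulAction G L]

/-- The hypotheses on the action used below. -/
structure Setup (P L G : Type*) [Membership P L] [ProjectivePlane P L] [Fintype P] [Fintype L]
    [Group G] [Fintype G] [MulAction G P] [MulAction G L] (k v : ℕ) : Prop where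
  order : ProjectivePlane.order P L = k ^ 2
  faith : ∀ g : G, (∀ p : P, g • p = p) → g = 1
  inc : ∀ (g : G) (p : P) (l : L), p ∈ l ↔ g • p ∈ g • l
  qrP : ∀ (g : G) (p q : P), q ∈ MulAction.orbit G p → g • p = p → g • q = q
  hk : 3 ≤ k
  hv : v + k = k ^ 2 + 1
  card : Fintype.card G = v ^ 2
  orb : Nat.card (MulAction.orbitRel.Quotient G P) = 2 * k + 1
  nofixP : ¬ ∃ p : P, ∀ g : G, g • p = p
  nofixL : ¬ ∃ l : L, ∀ g : G, g • l = l

open Classical in
/-- fixed points of a subgroup -/
noncomputable def FP (P : Type*) [Fintype P] [MulAction G P] (N : Subgroup G) : Finset P :=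
  Finset.univ.filter (fun p => ∀ g ∈ N, g • p = p)

lemma mem_FP (N : Subgroup G) (p : P) : p ∈ FP P N ↔ ∀ g ∈ N, g • p = p := by simp [FP]

variable {k v : ℕ}

lemma closed_conf (S : Setup P L G k v) (N : Subgroup G) : IsClosedConf (FP P N) (FP L N) where
  line_mem := by
    intro p hp q hq hpq l hpl hql
    rw [mem_FP] at *
    intro g hg
    apply line_unique (P := P) hpq _ _ hpl hql
    · have := (S.inc g p l).1 hpl
      rwa [hp g hg] at this
    · have := (S.inc g q l).1 hql
      rwa [hq g hg] at this
  point_mem := by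
    intro l hl m hm hlm p hpl hpm
    rw [mem_FP] at *
    intro g hg
    apply point_unique (L := L) hlm _ _ hpl hpm
    · have := (S.inc g p l).1 hpl
      rwa [hl g hg] at this
    · have := (S.inc g p m).1 hpm
      rwa [hm g hg] at this

lemma smul_mem_FP {N : Subgroup G} (hN : N.Normal) (g : G) {p : P} (hp : p ∈ FP P N) :
    g • p ∈ FP P N := by
  rw [mem_FP] at *
  intro n hn
  have h1 : g⁻¹ * n * g ∈ N := by
    have := hN.conj_mem n hn g⁻¹
    simpa using this
  have h2 := hp _ h1
  calc n • g • p = g • ((g⁻¹ * n * g) • p) := by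
        rw [smul_smul, smul_smul]; congr 1; group
    _ = g • p := by rw [h2]

lemma two_le_sdiff (S : Setup P L G k v) {N : Subgroup G} (hN : N.Normal)
    (h4 : 4 ≤ (FP P N).card) (l : L) : 2 ≤ (FP P N \ pts l).card := by
  classical
  by_contra hlt
  push Not at hlt
  apply S.nofixL
  refine ⟨l, fun g => ?_⟩
  by_contra hne
  have hle := Finset.card_sdiff_add_card_inter (FP P N) (pts l)
  have h3 : 3 ≤ (FP P N ∩ pts l).card := by omega
  -- image of `F ∩ l` under `g`
  have h5 : ((FP P N ∩ pts l).image (fun p => g • p)).card = (FP P N ∩ pts l).card :=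
    Finset.card_image_of_injective _ (MulAction.injective g)
  have h6 : (FP P N ∩ pts l).image (fun p => g • p) ⊆
      (FP P N \ pts l) ∪ (pts l ∩ pts (g • l)) := by
    intro q hq
    rw [Finset.mem_image] at hq
    obtain ⟨p, hp, rfl⟩ := hq
    rw [Finset.mem_inter, mem_pts] at hp
    have h7 : g • p ∈ FP P N := smul_mem_FP hN g hp.1
    have h8 : g • p ∈ g • l := (S.inc g p l).1 hp.2
    rw [Finset.mem_union, Finset.mem_sdiff, Finset.mem_inter, mem_pts, mem_pts]
    by_cases h9 : g • p ∈ l
    · exact Or.inr ⟨h9, h8⟩
    · exact Or.inl ⟨h7, h9⟩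
  have h7 := Finset.card_le_card h6
  have h8 := Finset.card_union_le (FP P N \ pts l) (pts l ∩ pts (g • l))
  have h9 : (pts l ∩ pts (g • l) : Finset P).card ≤ 1 := by
    rw [Finset.card_le_one]
    intro a ha b hb
    rw [Finset.mem_inter, mem_pts, mem_pts] at ha hb
    exact point_unique (Ne.symm hne) ha.1 ha.2 hb.1 hb.2
  omega

lemma FP_ne_univ (S : Setup P L G k v) {N : Subgroup G} (hN : N ≠ ⊥) :
    FP P N ≠ Finset.univ := by
  intro h
  apply hN
  rw [Subgroup.eq_bot_iff_forall]
  intro g hg
  apply S.faith
  intro p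
  have : p ∈ FP P N := by rw [h]; exact Finset.mem_univ p
  exact (mem_FP N p).1 this g hg

lemma FP_card_cases (S : Setup P L G k v) {N : Subgroup G} (hN : N.Normal) (hN' : N ≠ ⊥) :
    (FP P N).card ≤ 3 ∨ ∃ m : ℕ, (FP P N).card = m ^ 2 + m + 1 ∧ m ≤ k ∧
      (∀ l ∈ FP L N, (FP P N ∩ pts l).card = m + 1) ∧ (FP L N).Nonempty := by
  by_cases h4 : 4 ≤ (FP P N).card
  · right
    obtain ⟨m, h1, h2, h3, h5⟩ := conf_main (closed_conf S N) (two_le_sdiff S hN h4)
      (FP_ne_univ S hN')
    refine ⟨m, h1, ?_, h3, h5⟩
    rw [S.order] at h2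
    exact (Nat.pow_le_pow_iff_left two_ne_zero).1 h2
  · left
    omega

lemma FP_card_le (S : Setup P L G k v) {N : Subgroup G} (hN : N.Normal) (hN' : N ≠ ⊥) :
    (FP P N).card ≤ k ^ 2 + k + 1 := by
  rcases FP_card_cases S hN hN' with h | ⟨m, h, hm, -⟩
  · have := S.hk
    nlinarith
  · rw [h]
    have : m ^ 2 ≤ k ^ 2 := Nat.pow_le_pow_left hm 2
    omega

/-- A group acting freely on an invariant finite set has order dividing the size of the set. -/
lemma card_dvd_of_free {G' : Type*} [Group G'] [MulAction G' P] (N : Subgroup G') (X : Finset P)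
    (hinv : ∀ g ∈ N, ∀ x ∈ X, g • x ∈ X) (hfree : ∀ g ∈ N, ∀ x ∈ X, g • x = x → g = 1) :
    Nat.card N ∣ X.card := by
  classical
  let A : SubMulAction N P :=
    { carrier := (X : Set P)
      smul_mem' := by
        intro g x hx
        exact hinv g.1 g.2 x hx }
  have hstab : ∀ b : A, MulAction.stabilizer N b = ⊥ := by
    intro b
    rw [Subgroup.eq_bot_iff_forall]
    intro g hg
    rw [MulAction.mem_stabilizer_iff] at hg
    have h1 := congrArg Subtype.val hg
    have h2 : (g : G') • (b : P) = b := h1
    exact Subtype.ext (hfree g.1 g.2 b.1 b.2 h2)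
  have e := MulAction.selfEquivOrbitsQuotientProd (G := N) (X := A) hstab
  have h3 := Nat.card_congr e
  rw [Nat.card_prod] at h3
  have h4 : Nat.card A = X.card := by
    have : Nat.card (X : Set P) = X.card := by
      rw [Nat.card_coe_set_eq, Set.ncard_coe_finset]
    exact this
  rw [← h4, h3]
  exact dvd_mul_left _ _

/-- Stabilizers are normal. -/
lemma stab_normal (S : Setup P L G k v) (p : P) : (MulAction.stabilizer G p).Normal := by
  constructor
  intro n hn g
  rw [MulAction.mem_stabilizer_iff] at *
  have h1 : n • (g⁻¹ • p) = g⁻¹ • p := S.qrP n p _ ⟨g⁻¹, rfl⟩ hn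
  rw [mul_smul, mul_smul, h1, smul_inv_smul]

lemma FP_card_le_v (S : Setup P L G k v) {N : Subgroup G} (hN : N.Normal) (hN' : N ≠ ⊥) :
    (FP P N).card ≤ v := by
  classical
  have hk := S.hk
  have hv := S.hv
  rcases FP_card_cases S hN hN' with h | ⟨m, h, hm, hl, ⟨l, hlE⟩⟩
  · nlinarith
  · rcases Nat.lt_or_ge m k with hlt | hge
    · rw [h]
      have h1 : m + 1 ≤ k := hlt
      obtain ⟨c, hc⟩ := Nat.exists_eq_add_of_le h1
      subst hc
      nlinarith
    · exfalso
      have hmk : m = k := le_antisymm hm hge
      subst hmk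
      -- N acts freely on the points of l off F
      have hdvd : Nat.card N ∣ (pts l \ FP P N : Finset P).card := by
        apply card_dvd_of_free N
        · intro g hg x hx
          rw [Finset.mem_sdiff, mem_pts] at *
          have hlg : g • l = l := (mem_FP N l).1 hlE g hg
          refine ⟨?_, ?_⟩
          · have := (S.inc g x l).1 hx.1
            rwa [hlg] at this
          · intro h2
            apply hx.2
            have := smul_mem_FP hN g⁻¹ h2
            rwa [inv_smul_smul] at this
        · intro g hg x hx hgx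
          by_contra hg1
          have hNn : (N ⊓ MulAction.stabilizer G x).Normal := by
            have := hN
            have := stab_normal S x
            infer_instance
          have hNb : N ⊓ MulAction.stabilizer G x ≠ ⊥ := by
            intro hb
            apply hg1
            have : g ∈ N ⊓ MulAction.stabilizer G x := ⟨hg, hgx⟩
            rw [hb] at this
            exact (Subgroup.mem_bot).1 this
          have h3 := FP_card_le S hNn hNb
          have h4 : insert x (FP P N) ⊆ FP P (N ⊓ MulAction.stabilizer G x) := by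
            intro y hy
            rw [Finset.mem_insert] at hy
            rw [mem_FP]
            intro g' hg'
            rcases hy with rfl | hy
            · exact hg'.2
            · exact (mem_FP N y).1 hy g' hg'.1
          have h5 := Finset.card_le_card h4
          rw [Finset.card_insert_of_notMem (Finset.mem_sdiff.1 hx).2, h] at h5
          omega
      have hcardX : (pts l \ FP P N : Finset P).card = m ^ 2 - m := by
        have h1 := Finset.card_sdiff_add_card_inter (pts l) (FP P N)
        rw [Finset.inter_comm, hl l hlE, card_pts, S.order] at h1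
        omega
      have hNdvd : Nat.card N ∣ v ^ 2 := by
        rw [← S.card, ← Nat.card_eq_fintype_card]
        exact Subgroup.card_subgroup_dvd_card N
      have hcop : Nat.Coprime (m ^ 2 - m) (v ^ 2) := by
        apply Nat.Coprime.pow_right
        have hv2 : v = (m ^ 2 - m) + 1 := by
          have : m ≤ m ^ 2 := by nlinarith
          omega
        rw [hv2]
        simp
      have h1 : Nat.card N = 1 := by
        rw [hcardX] at hdvd
        exact Nat.eq_one_of_dvd_coprimes hcop hdvd hNdvd
      exact hN' (Subgroup.card_eq_one.1 h1)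

end Act

end Pool.Agent.MP_49949b_co
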