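import Mathlib

set_option autoImplicit false
set_option linter.unusedSectionVars false

namespace Pool.Agent.MP_49949b_co

open Finset

section GroupRing

variable {G : Type*} [CommGroup G] [Fintype G] [DecidableEq G]

/-- The sum in the group ring of the elements of a finite set. -/
noncomputable def ind (R : Type*) [CommRing R] (A : Finset G) : MonoidAlgebra R G :=
  ∑ x ∈ A, MonoidAlgebra.single x (1 : R)

lemma ind_coeff (R : Type*) [CommRing R] (A : Finset G) (g : G) :
    (ind R A).coeff g = if g ∈ A then 1 else 0 := by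
  unfold ind
  rw [MonoidAlgebra.coeff_sum]
  rw [Finsupp.finsetSum_apply]
  simp only [MonoidAlgebra.coeff_single, Finsupp.single_apply]
  rw [Finset.sum_ite_eq' A g (fun _ => (1 : R))]

lemma ind_mul_ind_coeff (R : Type*) [CommRing R] (A B : Finset G) (g : G) :
    (ind R A * ind R B).coeff g =
      (((A ×ˢ B).filter (fun p : G × G => p.1 * p.2 = g)).card : R) := by
  unfold ind
  rw [Finset.sum_mul_sum, ← Finset.sum_product', MonoidAlgebra.coeff_sum,
    Finsupp.finsetSum_apply]
  simp only [MonoidAlgebra.single_mul_single, MonoidAlgebra.coeff_single, Finsupp.single_apply,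
    mul_one]
  rw [Finset.sum_ite, Finset.sum_const_zero, add_zero, Finset.sum_const, nsmul_eq_mul, mul_one]

/-- The involution of the group ring induced by inversion. -/
noncomputable def inv' (R : Type*) [CommRing R] : MonoidAlgebra R G →+* MonoidAlgebra R G :=
  MonoidAlgebra.mapDomainRingHom R (invMonoidHom : G →* G)

lemma inv'_single (R : Type*) [CommRing R] (g : G) (r : R) :
    inv' R (MonoidAlgebra.single g r) = MonoidAlgebra.single g⁻¹ r := by
  unfold inv'
  simp

lemma eq_sum_single {R : Type*} [CommRing R] (x : MonoidAlgebra R G) :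
    x = ∑ g : G, MonoidAlgebra.single g (x.coeff g) := by
  ext g
  rw [MonoidAlgebra.coeff_sum, Finsupp.finsetSum_apply]
  simp only [MonoidAlgebra.coeff_single, Finsupp.single_apply]
  simp

lemma inv'_eq_sum {R : Type*} [CommRing R] (x : MonoidAlgebra R G) :
    inv' R x = ∑ g : G, MonoidAlgebra.single g⁻¹ (x.coeff g) := by
  conv_lhs => rw [eq_sum_single x]
  rw [map_sum]
  simp only [inv'_single]

lemma inv'_coeff {R : Type*} [CommRing R] (x : MonoidAlgebra R G) (g : G) :
    (inv' R x).coeff g = x.coeff g⁻¹ := by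
  rw [inv'_eq_sum, MonoidAlgebra.coeff_sum, Finsupp.finsetSum_apply]
  simp only [MonoidAlgebra.coeff_single, Finsupp.single_apply]
  have : ∀ h : G, (h⁻¹ = g) ↔ (h = g⁻¹) := fun h => inv_eq_iff_eq_inv
  simp only [this]
  simp

lemma inv'_inv' {R : Type*} [CommRing R] (x : MonoidAlgebra R G) :
    inv' R (inv' R x) = x := by
  ext g
  rw [inv'_coeff, inv'_coeff, inv_inv]

lemma mul_inv'_coeff_one {R : Type*} [CommRing R] (x y : MonoidAlgebra R G) :
    (x * inv' R y).coeff 1 = ∑ g : G, x.coeff g * y.coeff g := by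
  conv_lhs => rw [eq_sum_single x, inv'_eq_sum y]
  rw [Finset.sum_mul_sum, ← Finset.sum_product', MonoidAlgebra.coeff_sum,
    Finsupp.finsetSum_apply]
  simp only [MonoidAlgebra.single_mul_single, MonoidAlgebra.coeff_single, Finsupp.single_apply]
  rw [Finset.sum_product]
  apply Finset.sum_congr rfl
  intro g _
  have : ∀ h : G, (g * h⁻¹ = 1) ↔ (g = h) := fun h => mul_inv_eq_one
  simp only [this]
  simp

lemma inv'_ind (R : Type*) [CommRing R] (A : Finset G) (hA : ∀ g, g⁻¹ ∈ A ↔ g ∈ A) :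
    inv' R (ind R A) = ind R A := by
  ext g
  rw [inv'_coeff, ind_coeff, ind_coeff]
  simp only [hA]

instance charP_ma (q : ℕ) [Fact q.Prime] : CharP (MonoidAlgebra (ZMod q) G) q :=
  charP_of_injective_algebraMap (R := ZMod q) (A := MonoidAlgebra (ZMod q) G)
    (FaithfulSMul.algebraMap_injective _ _) q

lemma pow_eq_inv' (q : ℕ) [Fact q.Prime] (m : ℕ) (hm : ∀ g : G, g ^ (q ^ m) = g⁻¹)
    (x : MonoidAlgebra (ZMod q) G) : x ^ (q ^ m) = inv' (ZMod q) x := by
  conv_lhs => rw [eq_sum_single x]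
  rw [sum_pow_char_pow, inv'_eq_sum]
  apply Finset.sum_congr rfl
  intro g _
  rw [MonoidAlgebra.single_pow, hm, ZMod.pow_card_pow]

/-- If inversion on `G` is a power of the `q`-Frobenius, then the form `x ↦ x x*` is anisotropic
on the group algebra over the field with `q` elements. -/
lemma eq_zero_of_mul_inv' (q : ℕ) [Fact q.Prime] (m : ℕ) (hm1 : 1 ≤ m)
    (hm : ∀ g : G, g ^ (q ^ m) = g⁻¹)
    (x : MonoidAlgebra (ZMod q) G) (hx : x * inv' (ZMod q) x = 0) : x = 0 := by
  have h1 : x ^ (q ^ m + 1) = 0 := by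
    rw [pow_succ, pow_eq_inv' q m hm, mul_comm, hx]
  have h2 : x ^ (q ^ m * q ^ m) = x := by
    rw [pow_mul, pow_eq_inv' q m hm, pow_eq_inv' q m hm, inv'_inv']
  have hq : 2 ≤ q ^ m := by
    calc 2 ≤ q := (Fact.out : q.Prime).two_le
      _ ≤ q ^ m := Nat.le_self_pow (by omega) q
  have h3 : q ^ m + 1 ≤ q ^ m * q ^ m := by nlinarith
  rw [← h2]
  exact pow_eq_zero_of_le h3 h1

/-- The divisibility version over the integers. -/
lemma dvd_of_mul_inv' (q : ℕ) [Fact q.Prime] (m : ℕ) (hm1 : 1 ≤ m)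
    (hm : ∀ g : G, g ^ (q ^ m) = g⁻¹) (a : ℕ) :
    ∀ (W U : MonoidAlgebra ℤ G),
      W * inv' ℤ W = ((q : ℤ) ^ (2 * a)) • U → ∀ g, (q : ℤ) ^ a ∣ W.coeff g := by
  induction a with
  | zero => intro W U _ g; simp
  | succ a ih =>
    intro W U hWU g
    -- reduction mod q
    let φ : MonoidAlgebra ℤ G →+* MonoidAlgebra (ZMod q) G :=
      MonoidAlgebra.mapRingHom G (Int.castRingHom (ZMod q))
    have hφc : ∀ (x : MonoidAlgebra ℤ G) (g : G), (φ x).coeff g = ((x.coeff g : ℤ) : ZMod q) := by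
      intro x g
      simp only [φ, MonoidAlgebra.coeff_mapRingHom]
      simp
    have hφinv : ∀ x : MonoidAlgebra ℤ G, φ (inv' ℤ x) = inv' (ZMod q) (φ x) := by
      intro x
      ext g
      rw [hφc, inv'_coeff, inv'_coeff, hφc]
    have h0 : φ W * inv' (ZMod q) (φ W) = 0 := by
      rw [← hφinv, ← map_mul, hWU]
      ext g
      rw [hφc, MonoidAlgebra.coeff_smul_apply]
      simp
    have h1 : φ W = 0 := eq_zero_of_mul_inv' q m hm1 hm _ h0
    have h2 : ∀ g, (q : ℤ) ∣ W.coeff g := by
      intro g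
      have h3 := hφc W g
      rw [h1] at h3
      rw [← ZMod.intCast_zmod_eq_zero_iff_dvd]
      simpa using h3.symm
    -- W = q • W1
    let W1 : MonoidAlgebra ℤ G := ∑ g : G, MonoidAlgebra.single g (W.coeff g / q)
    have hW1c : ∀ g, W1.coeff g = W.coeff g / q := by
      intro g
      simp only [W1]
      rw [MonoidAlgebra.coeff_sum, Finsupp.finsetSum_apply]
      simp only [MonoidAlgebra.coeff_single, Finsupp.single_apply]
      simp
    have hW1 : W = (q : ℤ) • W1 := by
      ext g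
      rw [MonoidAlgebra.coeff_smul_apply, hW1c, smul_eq_mul, Int.mul_ediv_cancel' (h2 g)]
    have hq0 : (q : ℤ) ≠ 0 := by
      have := (Fact.out : q.Prime).pos
      positivity
    have h4 : W1 * inv' ℤ W1 = ((q : ℤ) ^ (2 * a)) • U := by
      have h5 : (q : ℤ) ^ 2 • (W1 * inv' ℤ W1) = (q : ℤ) ^ 2 • (((q : ℤ) ^ (2 * a)) • U) := by
        rw [smul_smul, ← pow_add, show 2 + 2 * a = 2 * (a + 1) by ring, ← hWU, hW1, map_zsmul,
          smul_mul_smul_comm, sq]
      ext g
      have h6 := congrArg (fun z : MonoidAlgebra ℤ G => z.coeff g) h5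
      simp only [MonoidAlgebra.coeff_smul_apply, smul_eq_mul] at h6 ⊢
      exact mul_left_cancel₀ (pow_ne_zero 2 hq0) h6
    have h7 := ih W1 U h4 g
    rw [hW1, MonoidAlgebra.coeff_smul_apply, smul_eq_mul, pow_succ, mul_comm]
    exact mul_dvd_mul_left _ h7

end GroupRing

end Pool.Agent.MP_49949b_co
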