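import Pool.Agent.MP_49949b_co.Relations

set_option autoImplicit false
set_option linter.unusedSectionVars false

namespace Pool.Agent.MP_49949b_co

open Finset

section Key

variable {G : Type*} [CommGroup G] [Fintype G] [DecidableEq G]
variable {ι : Type*} [Fintype ι] {k v : ℕ} {N : ι → Subgroup G} {D : Finset G}

/-- For `g ∈ D` the coefficient of `N_i D` at `g` is `1`. -/
lemma coeff_ND (R : Type*) [CommRing R] (H : TypeH k v N D) (i : ι) (g : G) (hg : g ∈ D) :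
    (ind R (fs (N i)) * ind R D).coeff g = 1 := by
  rw [ind_mul_ind_coeff]
  rw [Finset.card_eq_one.2 ⟨(1, g), ?_⟩, Nat.cast_one]
  ext ⟨a, b⟩
  simp only [Finset.mem_filter, Finset.mem_product, Finset.mem_singleton, mem_fs, Prod.mk.injEq]
  constructor
  · rintro ⟨⟨ha, hb⟩, hab⟩
    have h1 : g * b⁻¹ ∈ N i := by
      rw [← hab, mul_inv_cancel_right]; exact ha
    have h2 := H.h0 i g hg b hb h1
    subst h2
    exact ⟨by simpa using hab, rfl⟩
  · rintro ⟨rfl, rfl⟩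
    exact ⟨⟨(N i).one_mem, hg⟩, one_mul _⟩

lemma coeff_SD (R : Type*) [CommRing R] (H : TypeH k v N D) (g : G) (hg : g ∈ D) :
    (SS R N * ind R D).coeff g = 2 * (k : R) := by
  unfold SS
  rw [Finset.sum_mul, MonoidAlgebra.coeff_sum, Finsupp.finsetSum_apply,
    Finset.sum_congr rfl (fun i _ => coeff_ND R H i g hg), Finset.sum_const, Finset.card_univ, H.hι,
    nsmul_eq_mul]
  push_cast
  ring

lemma coeff_natCast_mul (R : Type*) [CommRing R] (n : ℕ) (x : MonoidAlgebra R G) (g : G) :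
    ((n : MonoidAlgebra R G) * x).coeff g = (n : R) * x.coeff g := by
  rw [← nsmul_eq_mul, ← Nat.cast_smul_eq_nsmul R, MonoidAlgebra.coeff_smul_apply, smul_eq_mul]

lemma coeff_intCast_mul (n : ℤ) (x : MonoidAlgebra ℤ G) (g : G) :
    ((n : MonoidAlgebra ℤ G) * x).coeff g = n * x.coeff g := by
  rw [← zsmul_eq_mul, MonoidAlgebra.coeff_smul_apply, smul_eq_mul]

lemma coeff_WW (g : G) :
    (WW ℤ k v N D).coeff g = (v : ℤ) ^ 2 * (if g ∈ D then 1 else 0)
      - v * (SS ℤ N * ind ℤ D).coeff g + (2 * (k : ℤ) - 1) * (k - 1) ^ 2 := by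
  have h : WW ℤ k v N D = (((v : ℤ) ^ 2 : ℤ) : MonoidAlgebra ℤ G) * ind ℤ D
      - ((v : ℤ) : MonoidAlgebra ℤ G) * (SS ℤ N * ind ℤ D)
      + (((2 * (k : ℤ) - 1) * (k - 1) ^ 2 : ℤ) : MonoidAlgebra ℤ G) * ind ℤ Finset.univ := by
    unfold WW
    push_cast
    ring
  rw [h, MonoidAlgebra.coeff_add, MonoidAlgebra.coeff_sub, Finsupp.add_apply, Finsupp.sub_apply,
    coeff_intCast_mul, coeff_intCast_mul, coeff_intCast_mul, ind_coeff, ind_coeff]
  simp

lemma sum_WW_sq (H : TypeH k v N D) :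
    ∑ g : G, (WW ℤ k v N D).coeff g * (WW ℤ k v N D).coeff g =
      (v : ℤ) ^ 2 * k ^ 2 * ((v : ℤ) ^ 2 - 2 * k * v + (2 * k - 1)) := by
  rw [← mul_inv'_coeff_one, WW_mul ℤ H]
  have h : (v : MonoidAlgebra ℤ G) ^ 2 * (k : MonoidAlgebra ℤ G) ^ 2 *
        ((v : MonoidAlgebra ℤ G) ^ 2 - (v : MonoidAlgebra ℤ G) * SS ℤ N +
        (2 * (k : MonoidAlgebra ℤ G) - 1) * ind ℤ Finset.univ) =
      (((v : ℤ) ^ 2 * k ^ 2 * v ^ 2 : ℤ) : MonoidAlgebra ℤ G) * 1
      - (((v : ℤ) ^ 2 * k ^ 2 * v : ℤ) : MonoidAlgebra ℤ G) * SS ℤ N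
      + (((v : ℤ) ^ 2 * k ^ 2 * (2 * k - 1) : ℤ) : MonoidAlgebra ℤ G) * ind ℤ Finset.univ := by
    push_cast
    ring
  rw [h, MonoidAlgebra.coeff_add, MonoidAlgebra.coeff_sub, Finsupp.add_apply, Finsupp.sub_apply,
    coeff_intCast_mul, coeff_intCast_mul, coeff_intCast_mul, ind_coeff, SS_coeff]
  have h1 : ∀ i, (1 : G) ∈ fs (N i) := fun i => (mem_fs _ _).2 (N i).one_mem
  simp only [h1, if_true, Finset.mem_univ, Finset.sum_const, Finset.card_univ, H.hι,
    MonoidAlgebra.coeff_one_one, nsmul_eq_mul]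
  push_cast
  ring

lemma sum_WW (H : TypeH k v N D) :
    ∑ g : G, (WW ℤ k v N D).coeff g = 0 := by
  have h0 : ∑ g : G, (WW ℤ k v N D).coeff g =
      ∑ g : G, (WW ℤ k v N D).coeff g * (ind ℤ (Finset.univ : Finset G)).coeff g := by
    apply Finset.sum_congr rfl
    intro g _
    rw [ind_coeff]
    simp
  rw [h0, ← mul_inv'_coeff_one, inv'_univ]
  have h : WW ℤ k v N D * ind ℤ Finset.univ = 0 := by
    unfold WW
    have h3 := relSG ℤ H
    have h4 := relGG ℤ H
    have h5 := relGd ℤ H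
    generalize (ind ℤ D) = d at *
    generalize (ind ℤ (Finset.univ : Finset G)) = Γ at *
    generalize (SS ℤ N) = S at *
    generalize (v : MonoidAlgebra ℤ G) = V at *
    generalize (k : MonoidAlgebra ℤ G) = K at *
    linear_combination (V ^ 2 - V * S) * h5 - V * (K - 1) ^ 2 * h3 +
      (2 * K - 1) * (K - 1) ^ 2 * h4
  rw [h]
  simp

/-- First key lemma: no prime power `q ^ a ≥ 3` dividing `k` can have `q` self-conjugate. -/
lemma key1 (H : TypeH k v N D) (q : ℕ) [Fact q.Prime] (a m : ℕ) (hm1 : 1 ≤ m)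
    (hm : ∀ g : G, g ^ (q ^ m) = g⁻¹) (hs : q ^ a ∣ k) (h3 : 3 ≤ q ^ a) : False := by
  classical
  obtain ⟨k', hk'⟩ := hs
  have hkZ : (k : ℤ) = (q : ℤ) ^ a * k' := by rw [hk']; push_cast; ring
  have hv := cast_v ℤ H.hv
  have hk3 : (3 : ℤ) ≤ k := by exact_mod_cast H.hk
  have hdvd : ∀ g, (q : ℤ) ^ a ∣ (WW ℤ k v N D).coeff g := by
    apply dvd_of_mul_inv' q m hm1 hm a (WW ℤ k v N D)
      ((((v : ℤ) ^ 2 * k' ^ 2 : ℤ) : MonoidAlgebra ℤ G) *
        ((v : MonoidAlgebra ℤ G) ^ 2 - (v : MonoidAlgebra ℤ G) * SS ℤ N +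
        (2 * (k : MonoidAlgebra ℤ G) - 1) * ind ℤ Finset.univ))
    rw [WW_mul ℤ H, zsmul_eq_mul]
    have : (k : MonoidAlgebra ℤ G) = ((q : MonoidAlgebra ℤ G)) ^ a * (k' : MonoidAlgebra ℤ G) := by
      rw [hk']; push_cast; ring
    push_cast
    rw [show (k : MonoidAlgebra ℤ G) ^ 2 = ((q : MonoidAlgebra ℤ G) ^ a * (k' : MonoidAlgebra ℤ G)) ^ 2
      by rw [this]]
    ring
  set W : G → ℤ := fun g => (WW ℤ k v N D).coeff g with hW
  set s : ℤ := (q : ℤ) ^ a with hs'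
  have hs3 : (3 : ℤ) ≤ s := by rw [hs']; exact_mod_cast h3
  set c1 : ℤ := (2 * (k : ℤ) - 1) * k with hc1
  -- value on D
  have hWD : ∀ g ∈ D, W g + c1 = (v : ℤ) * (k * (k - 1)) := by
    intro g hg
    simp only [hW]
    rw [coeff_WW, coeff_SD ℤ H g hg, if_pos hg, hc1, hv]
    ring
  -- sign off D
  have hoff : ∀ g ∈ Dᶜ, 0 ≤ (W g + c1) * (W g + c1 - v * s) := by
    intro g hg
    rw [Finset.mem_compl] at hg
    set B : ℤ := (2 * (k : ℤ) - 1) - (SS ℤ N * ind ℤ D).coeff g with hB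
    have h1 : W g + c1 = v * B := by
      simp only [hW]
      rw [coeff_WW, if_neg hg, hc1, hB, hv]
      ring
    have h2 : s ∣ v * B := by
      rw [← h1]
      apply dvd_add (hdvd g)
      rw [hc1, hkZ]
      exact ⟨(2 * ((q : ℤ) ^ a * k') - 1) * k', by rw [hs']; ring⟩
    have hcop : IsCoprime s (v : ℤ) := by
      refine ⟨-(k' * ((k : ℤ) - 1)), 1, ?_⟩
      rw [hv, hs']
      have : -(↑k' * ((k : ℤ) - 1)) * (q : ℤ) ^ a = -(((q : ℤ) ^ a * k') * (k - 1)) := by ring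
      rw [this, ← hkZ]
      ring
    have h3 : s ∣ B := hcop.dvd_of_dvd_mul_left h2
    obtain ⟨b, hb⟩ := h3
    rw [h1, hb]
    have h4 : (v : ℤ) * (s * b) * (v * (s * b) - v * s) = ((v : ℤ) * s) ^ 2 * (b * (b - 1)) := by
      ring
    rw [h4]
    apply mul_nonneg (sq_nonneg _)
    rcases le_or_gt b 0 with hb0 | hb0
    · nlinarith
    · nlinarith
  have hsumoff : 0 ≤ ∑ g ∈ Dᶜ, (W g + c1) * (W g + c1 - v * s) := Finset.sum_nonneg hoff
  have hsplit := Finset.sum_add_sum_compl D (fun g => (W g + c1) * (W g + c1 - v * s))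
  have hsumD : ∑ g ∈ D, (W g + c1) * (W g + c1 - v * s) =
      ((k : ℤ) - 1) ^ 2 * ((v : ℤ) * (k * (k - 1)) * ((v : ℤ) * (k * (k - 1)) - v * s)) := by
    rw [Finset.sum_congr rfl (fun g hg => by rw [hWD g hg]), Finset.sum_const, nsmul_eq_mul,
      cast_D ℤ H]
  have hsumall : ∑ g : G, (W g + c1) * (W g + c1 - v * s) =
      (v : ℤ) ^ 2 * k ^ 2 * ((v : ℤ) ^ 2 - 2 * k * v + (2 * k - 1)) + v ^ 2 * (c1 * (c1 - v * s)) := by
    have h1 : ∀ g : G, (W g + c1) * (W g + c1 - v * s) =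
        W g * W g + (2 * c1 - v * s) * W g + c1 * (c1 - v * s) := by intro g; ring
    simp only [h1]
    rw [Finset.sum_add_distrib, Finset.sum_add_distrib, ← Finset.mul_sum, sum_WW_sq H, sum_WW H,
      Finset.sum_const, Finset.card_univ, H.hG, nsmul_eq_mul]
    push_cast
    ring
  rw [hsumD, hsumall] at hsplit
  have hfinal : ∑ g ∈ Dᶜ, (W g + c1) * (W g + c1 - v * s) =
      (v : ℤ) ^ 2 * ((k : ℤ) ^ 3 * (3 * k - 2) - s * k ^ 4) := by
    have : ∑ g ∈ Dᶜ, (W g + c1) * (W g + c1 - v * s) =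
      ((v : ℤ) ^ 2 * k ^ 2 * ((v : ℤ) ^ 2 - 2 * k * v + (2 * k - 1)) + v ^ 2 * (c1 * (c1 - v * s)))
      - ((k : ℤ) - 1) ^ 2 * ((v : ℤ) * (k * (k - 1)) * ((v : ℤ) * (k * (k - 1)) - v * s)) := by
      linarith
    rw [this, hc1, hv]
    ring
  rw [hfinal] at hsumoff
  have hvpos : (0 : ℤ) < (v : ℤ) ^ 2 := by
    have : (0 : ℤ) < v := by rw [hv]; nlinarith
    positivity
  have h5 : (k : ℤ) ^ 3 * (3 * k - 2) - s * k ^ 4 < 0 := by
    have hk4 : (0 : ℤ) < (k : ℤ) ^ 4 := by positivity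
    have hk30 : (0 : ℤ) < (k : ℤ) ^ 3 := by positivity
    nlinarith
  have h6 : (v : ℤ) ^ 2 * ((k : ℤ) ^ 3 * (3 * k - 2) - s * k ^ 4) < 0 :=
    mul_neg_of_pos_of_neg hvpos h5
  linarith

/-- Second key lemma: no prime dividing `k - 1` is self-conjugate. -/
lemma key2 (H : TypeH k v N D) (q : ℕ) [Fact q.Prime] (m : ℕ) (hm1 : 1 ≤ m)
    (hm : ∀ g : G, g ^ (q ^ m) = g⁻¹) (hs : q ∣ k - 1) : False := by
  classical
  have hcardι : 0 < Fintype.card ι := by
    rw [H.hι]; have := H.hk; omega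
  obtain ⟨i⟩ := Fintype.card_pos_iff.1 hcardι
  have hq0 : (k : ZMod q) - 1 = 0 := by
    have h1 : ((k - 1 : ℕ) : ZMod q) = 0 := (ZMod.natCast_eq_zero_iff _ _).2 hs
    rw [Nat.cast_sub (by have := H.hk; omega)] at h1
    simpa using h1
  have hq0' : (k : MonoidAlgebra (ZMod q) G) - 1 = 0 := by
    have := congrArg (algebraMap (ZMod q) (MonoidAlgebra (ZMod q) G)) hq0
    rwa [map_sub, map_natCast, map_one, map_zero] at this
  set n := ind (ZMod q) (fs (N i)) with hn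
  have hx : (n * ind (ZMod q) D) * inv' (ZMod q) (n * ind (ZMod q) D) = 0 := by
    have hinvn : inv' (ZMod q) n = n := by
      apply inv'_ind
      intro g
      rw [mem_fs, mem_fs, inv_mem_iff]
    rw [map_mul, hinvn]
    have h1 := rel4 (ZMod q) H
    have h2 : n * n = (v : MonoidAlgebra (ZMod q) G) * n := by rw [hn, rel2, H.hN]
    have h3 : ind (ZMod q) Finset.univ * n =
        (v : MonoidAlgebra (ZMod q) G) * ind (ZMod q) Finset.univ := by
      rw [hn, rel1, H.hN]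
    have h4 : n * SS (ZMod q) N = (v : MonoidAlgebra (ZMod q) G) * n +
        (2 * (k : MonoidAlgebra (ZMod q) G) - 1) * ind (ZMod q) Finset.univ := by
      have hc : ∀ i j, (fs (N i)).card * (fs (N j)).card = Fintype.card G := by
        intro i j
        rw [H.hN, H.hN, H.hG, sq]
      have : n * SS (ZMod q) N = ∑ j : ι, ((if i = j then
        (v : MonoidAlgebra (ZMod q) G) * n - ind (ZMod q) Finset.univ else 0) +
          ind (ZMod q) Finset.univ) := by
        unfold SS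
        rw [Finset.mul_sum]
        apply Finset.sum_congr rfl
        intro j _
        by_cases hij : i = j
        · subst hij
          rw [if_pos rfl, ← hn, h2]
          ring
        · rw [if_neg hij, hn, rel3 _ (N i) (N j) (H.hdisj i j hij) (hc i j)]
          ring
      rw [this, Finset.sum_add_distrib]
      simp only [Finset.sum_ite_eq, Finset.mem_univ, if_true, Finset.sum_const,
        Finset.card_univ, H.hι, nsmul_eq_mul]
      push_cast
      ring
    have hv := cast_v (MonoidAlgebra (ZMod q) G) H.hv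
    generalize (inv' (ZMod q) (ind (ZMod q) D)) = e at *
    generalize (ind (ZMod q) D) = d at *
    generalize (ind (ZMod q) (Finset.univ : Finset G)) = Γ at *
    generalize (SS (ZMod q) N) = S at *
    generalize (v : MonoidAlgebra (ZMod q) G) = V at *
    generalize (k : MonoidAlgebra (ZMod q) G) = K at *
    clear_value n
    have hK : K = 1 := by linear_combination hq0'
    subst hK
    have hV : V = 1 := by rw [hv]; ring
    subst hV
    linear_combination n ^ 2 * h1 + (1 + Γ - S) * h2 + h3 - h4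
  have h0 := eq_zero_of_mul_inv' q m hm1 hm _ hx
  have hDne : D.Nonempty := by
    rw [← Finset.card_pos]
    have := H.hD
    have := H.hk
    nlinarith
  obtain ⟨g, hg⟩ := hDne
  have h1 := coeff_ND (ZMod q) H i g hg
  rw [← hn, h0] at h1
  simp at h1

end Key

end Pool.Agent.MP_49949b_co
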