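import Pool.Agent.MP_49949b_co.Stab

set_option autoImplicit false
set_option linter.unusedSectionVars false

namespace Pool.Agent.MP_49949b_co

open Finset Configuration

section Ln

variable {P L : Type*} [Membership P L] [ProjectivePlane P L] [Fintype P] [Fintype L]
  [DecidableEq P] [DecidableEq L]
variable {G : Type*} [Group G] [Fintype G] [MulAction G P] [MulAction G L]
variable {k v : ℕ}
variable {ω₀ : MulAction.orbitRel.Quotient G P}

lemma free_outside (S : Setup P L G k v) (h0 : (Orb ω₀).card = v ^ 2)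
    (h1 : ∀ ω : MulAction.orbitRel.Quotient G P, ω ≠ ω₀ → (Orb ω).card = v)
    {ω : MulAction.orbitRel.Quotient G P} (hω : ω ≠ ω₀) {x : P} (hx : x ∉ Orb ω) {g : G}
    (hg : g ∈ Nst ω) (hgx : g • x = x) : g = 1 := by
  set ω' : MulAction.orbitRel.Quotient G P := Quotient.mk'' x with hω'
  have hxω' : x ∈ Orb ω' := (mem_Orb _ _).2 rfl
  by_cases h : ω' = ω₀
  · rw [h] at hxω'
    exact regular_free S h0 hxω' hgx
  · have hne : ω ≠ ω' := by
      intro h2
      rw [← h2] at hxω'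
      exact hx hxω'
    exact Nst_disjoint S h1 hω h hne hg ((mem_Nst_iff S hxω' g).2 hgx)

lemma card_Orb_inter (S : Setup P L G k v) (h0 : (Orb ω₀).card = v ^ 2)
    (h1 : ∀ ω : MulAction.orbitRel.Quotient G P, ω ≠ ω₀ → (Orb ω).card = v)
    {ω : MulAction.orbitRel.Quotient G P} (hω : ω ≠ ω₀) {l : L} (hl : l ∈ FP L (Nst ω)) :
    (Orb ω ∩ pts l).card = k := by
  have hdvd : Nat.card (Nst ω) ∣ (pts l \ Orb ω : Finset P).card := by
    apply card_dvd_of_free
    · intro g hg x hx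
      rw [Finset.mem_sdiff, mem_pts] at *
      have hlg : g • l = l := (mem_FP _ l).1 hl g hg
      refine ⟨?_, ?_⟩
      · have := (S.inc g x l).1 hx.1
        rwa [hlg] at this
      · intro h2
        apply hx.2
        have := smul_mem_Orb ω g⁻¹ _ h2
        rwa [inv_smul_smul] at this
    · intro g hg x hx hgx
      exact free_outside S h0 h1 hω (Finset.mem_sdiff.1 hx).2 hg hgx
  rw [card_Nst S h1 hω] at hdvd
  have h3 := Finset.card_sdiff_add_card_inter (pts l) (Orb ω)
  rw [Finset.inter_comm, card_pts, S.order] at h3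
  have h4 : (Orb ω ∩ pts l).card ≤ v := by
    rw [← h1 ω hω]
    exact Finset.card_le_card Finset.inter_subset_left
  obtain ⟨c, hc⟩ := hdvd
  have hk := S.hk
  have hv := S.hv
  have hvf := v_facts S
  rw [hc] at h3
  have h5 : c = 1 := by
    rcases Nat.lt_trichotomy c 1 with h | h | h
    · have : c = 0 := by omega
      subst this
      omega
    · exact h
    · exfalso
      have : v * 2 ≤ v * c := Nat.mul_le_mul_left v h
      obtain ⟨d, hd⟩ := Nat.exists_eq_add_of_le hk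
      subst hd
      nlinarith
  subst h5
  omega

lemma line_mem_FP (S : Setup P L G k v)
    (h1 : ∀ ω : MulAction.orbitRel.Quotient G P, ω ≠ ω₀ → (Orb ω).card = v)
    {ω : MulAction.orbitRel.Quotient G P} (hω : ω ≠ ω₀) {p q : P} (hp : p ∈ Orb ω)
    (hq : q ∈ Orb ω) (hpq : p ≠ q) {l : L} (hpl : p ∈ l) (hql : q ∈ l) : l ∈ FP L (Nst ω) := by
  rw [Orb_eq_FP S h1 hω] at hp hq
  exact (closed_conf S (Nst ω)).line_mem p hp q hq hpq l hpl hql

lemma card_lines_through (S : Setup P L G k v) (h0 : (Orb ω₀).card = v ^ 2)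
    (h1 : ∀ ω : MulAction.orbitRel.Quotient G P, ω ≠ ω₀ → (Orb ω).card = v)
    {ω : MulAction.orbitRel.Quotient G P} (hω : ω ≠ ω₀) {p : P} (hp : p ∈ Orb ω) :
    (FP L (Nst ω) ∩ lns p).card = k := by
  have h3 : ((Orb ω).erase p).card = ∑ l ∈ FP L (Nst ω) ∩ lns p, ((Orb ω ∩ pts l).erase p).card := by
    rw [← Finset.card_biUnion]
    · congr 1
      ext q
      simp only [Finset.mem_erase, Finset.mem_biUnion, Finset.mem_inter, mem_lns, mem_pts]
      constructor
      · rintro ⟨hq, hqF⟩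
        obtain ⟨l, hql, hpl⟩ := exists_line_through (L := L) q p hq
        exact ⟨l, ⟨line_mem_FP S h1 hω hqF hp hq hql hpl, hpl⟩, hq, hqF, hql⟩
      · rintro ⟨l, -, hq, hqF, -⟩
        exact ⟨hq, hqF⟩
    · intro l hl l' hl' hll
      rw [Function.onFun, Finset.disjoint_left]
      intro q hq hq'
      simp only [Finset.mem_erase, Finset.mem_inter, mem_pts] at hq hq'
      rw [Finset.mem_coe, Finset.mem_inter, mem_lns] at hl hl'
      exact hll (line_unique hq.1 hq.2.2 hl.2 hq'.2.2 hl'.2)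
  have h4 : ∀ l ∈ FP L (Nst ω) ∩ lns p, ((Orb ω ∩ pts l).erase p).card = k - 1 := by
    intro l hl
    rw [Finset.mem_inter, mem_lns] at hl
    rw [Finset.card_erase_of_mem (by rw [Finset.mem_inter, mem_pts]; exact ⟨hp, hl.2⟩),
      card_Orb_inter S h0 h1 hω hl.1]
  rw [Finset.sum_congr rfl h4, Finset.sum_const, smul_eq_mul,
      Finset.card_erase_of_mem hp, h1 ω hω] at h3
  have hk := S.hk
  have hv := S.hv
  obtain ⟨d, hd⟩ := Nat.exists_eq_add_of_le hk
  subst hd
  have h5 : v - 1 = (3 + d) * (3 + d - 1) := by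
    have : 3 + d - 1 = 2 + d := by omega
    rw [this]
    have : v = (3 + d) * (2 + d) + 1 := by nlinarith
    omega
  rw [h5] at h3
  exact (Nat.eq_of_mul_eq_mul_right (by omega) h3).symm

lemma card_fixed_lines (S : Setup P L G k v) (h0 : (Orb ω₀).card = v ^ 2)
    (h1 : ∀ ω : MulAction.orbitRel.Quotient G P, ω ≠ ω₀ → (Orb ω).card = v)
    {ω : MulAction.orbitRel.Quotient G P} (hω : ω ≠ ω₀) :
    (FP L (Nst ω)).card = v := by
  classical
  have h := Finset.sum_card_bipartiteAbove_eq_sum_card_bipartiteBelow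
    (s := Orb ω) (t := FP L (Nst ω)) (fun (p : P) (l : L) => p ∈ l)
  have e1 : ∀ p ∈ Orb ω, (Finset.bipartiteAbove (fun (p : P) (l : L) => p ∈ l)
      (FP L (Nst ω)) p).card = k := by
    intro p hp
    rw [← card_lines_through S h0 h1 hω hp]
    congr 1
    ext l
    rw [Finset.mem_bipartiteAbove, Finset.mem_inter, mem_lns]
  have e2 : ∀ l ∈ FP L (Nst ω), (Finset.bipartiteBelow (fun (p : P) (l : L) => p ∈ l)
      (Orb ω) l).card = k := by
    intro l hl
    rw [← card_Orb_inter S h0 h1 hω hl]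
    congr 1
    ext p
    rw [Finset.mem_bipartiteBelow, Finset.mem_inter, mem_pts]
  rw [Finset.sum_congr rfl e1, Finset.sum_congr rfl e2, Finset.sum_const, Finset.sum_const,
    h1 ω hω, smul_eq_mul, smul_eq_mul] at h
  exact (Nat.eq_of_mul_eq_mul_right (by have := S.hk; omega) h).symm

lemma fixed_lines_disjoint (S : Setup P L G k v)
    (h1 : ∀ ω : MulAction.orbitRel.Quotient G P, ω ≠ ω₀ → (Orb ω).card = v)
    {ω ω' : MulAction.orbitRel.Quotient G P} (hω : ω ≠ ω₀) (hω' : ω' ≠ ω₀) (hne : ω ≠ ω')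
    {l : L} (hl : l ∈ FP L (Nst ω)) (hl' : l ∈ FP L (Nst ω')) : False := by
  apply S.nofixL
  refine ⟨l, fun g => ?_⟩
  obtain ⟨a, ha, b, hb, rfl⟩ := Nst_mul S h1 hω hω' hne g
  rw [mul_smul, (mem_FP _ l).1 hl' b hb, (mem_FP _ l).1 hl a ha]

open Classical in
/-- The lines fixed by no `N_ω`. -/
noncomputable def ZL (ω₀ : MulAction.orbitRel.Quotient G P) (L : Type*) [Fintype L]
    [MulAction G L] : Finset L :=
  Finset.univ.filter (fun l => ∀ ω : MulAction.orbitRel.Quotient G P, ω ≠ ω₀ → l ∉ FP L (Nst ω))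

lemma mem_ZL (l : L) : l ∈ ZL ω₀ L ↔ ∀ ω : MulAction.orbitRel.Quotient G P, ω ≠ ω₀ →
    l ∉ FP L (Nst ω) := by simp [ZL]

lemma card_ZL (S : Setup P L G k v) (h0 : (Orb ω₀).card = v ^ 2)
    (h1 : ∀ ω : MulAction.orbitRel.Quotient G P, ω ≠ ω₀ → (Orb ω).card = v) :
    (ZL ω₀ L).card = v ^ 2 := by
  classical
  have hfin : Fintype (MulAction.orbitRel.Quotient G P) := Fintype.ofFinite _
  have hcardΩ : (Finset.univ : Finset (MulAction.orbitRel.Quotient G P)).card = 2 * k + 1 := by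
    rw [Finset.card_univ, ← Nat.card_eq_fintype_card, S.orb]
  have hcompl : (ZL ω₀ L)ᶜ = (Finset.univ.erase ω₀).biUnion (fun ω => FP L (Nst ω)) := by
    ext l
    rw [Finset.mem_compl, mem_ZL, Finset.mem_biUnion]
    push Not
    constructor
    · rintro ⟨ω, hω, hl⟩
      exact ⟨ω, Finset.mem_erase.2 ⟨hω, Finset.mem_univ _⟩, hl⟩
    · rintro ⟨ω, hω, hl⟩
      exact ⟨ω, (Finset.mem_erase.1 hω).1, hl⟩
  have hcc : (ZL ω₀ L)ᶜ.card = 2 * k * v := by
    rw [hcompl, Finset.card_biUnion]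
    · rw [Finset.sum_congr rfl (fun ω hω => card_fixed_lines S h0 h1 (Finset.mem_erase.1 hω).1),
        Finset.sum_const, Finset.card_erase_of_mem (Finset.mem_univ _), hcardΩ, smul_eq_mul]
      congr 1
    · intro ω hω ω' hω' hne
      rw [Function.onFun, Finset.disjoint_left]
      intro l hl hl'
      exact fixed_lines_disjoint S h1 (Finset.mem_erase.1 hω).1 (Finset.mem_erase.1 hω').1 hne hl hl'
  have htot : Fintype.card L = v ^ 2 + 2 * k * v := by
    rw [ProjectivePlane.card_lines P L, S.order]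
    have hv := S.hv
    have h2 : (v : ℤ) = (k : ℤ) ^ 2 - k + 1 := by
      have := congrArg (Nat.cast : ℕ → ℤ) hv
      push_cast at this
      linear_combination this
    zify
    rw [h2]
    ring
  have := Finset.card_compl_add_card (ZL ω₀ L)
  rw [hcc, htot] at this
  omega

lemma ZL_inter_le_one (S : Setup P L G k v)
    (h1 : ∀ ω : MulAction.orbitRel.Quotient G P, ω ≠ ω₀ → (Orb ω).card = v)
    {ω : MulAction.orbitRel.Quotient G P} (hω : ω ≠ ω₀) {l : L} (hl : l ∈ ZL ω₀ L) :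
    (Orb ω ∩ pts l).card ≤ 1 := by
  rw [Finset.card_le_one]
  intro a ha b hb
  rw [Finset.mem_inter, mem_pts] at ha hb
  by_contra hne
  exact (mem_ZL l).1 hl ω hω (line_mem_FP S h1 hω ha.1 hb.1 hne ha.2 hb.2)

lemma card_ZL_through (S : Setup P L G k v) (h0 : (Orb ω₀).card = v ^ 2)
    (h1 : ∀ ω : MulAction.orbitRel.Quotient G P, ω ≠ ω₀ → (Orb ω).card = v)
    {ω : MulAction.orbitRel.Quotient G P} (hω : ω ≠ ω₀) {p : P} (hp : p ∈ Orb ω) :
    (ZL ω₀ L ∩ lns p).card = v := by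
  classical
  -- a line through p fixed by some other group is impossible
  have hno : ∀ ω', ω' ≠ ω₀ → ω' ≠ ω → ∀ l : L, p ∈ l → l ∉ FP L (Nst ω') := by
    intro ω' hω' hne l hpl hl
    -- choose a nontrivial element of `N_ω'`
    obtain ⟨g, hg, hg1⟩ : ∃ g ∈ Nst ω', g ≠ 1 := by
      by_contra hcon
      push Not at hcon
      exact Nst_ne_bot S h1 hω' ((Subgroup.eq_bot_iff_forall _).2 hcon)
    have h3 : g • p ≠ p := by
      intro h4
      exact hg1 (Nst_disjoint S h1 hω hω' (Ne.symm hne) ((mem_Nst_iff S hp g).2 h4) hg)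
    have h4 : g • p ∈ l := by
      have := (S.inc g p l).1 hpl
      rwa [(mem_FP _ l).1 hl g hg] at this
    have h5 := line_mem_FP S h1 hω (smul_mem_Orb ω g p hp) hp h3 h4 hpl
    exact fixed_lines_disjoint S h1 hω' hω hne hl h5
  have hsplit : (lns p : Finset L) = (ZL ω₀ L ∩ lns p) ∪ (FP L (Nst ω) ∩ lns p) := by
    ext l
    rw [Finset.mem_union, Finset.mem_inter, Finset.mem_inter, mem_lns]
    constructor
    · intro hpl
      by_cases h : l ∈ FP L (Nst ω)
      · exact Or.inr ⟨h, hpl⟩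
      · refine Or.inl ⟨?_, hpl⟩
        rw [mem_ZL]
        intro ω' hω'
        by_cases h2 : ω' = ω
        · rw [h2]; exact h
        · exact hno ω' hω' h2 l hpl
    · rintro (h | h)
      · exact h.2
      · exact h.2
  have hcard := congrArg Finset.card hsplit
  rw [Finset.card_union_of_disjoint, card_lns, S.order, card_lines_through S h0 h1 hω hp] at hcard
  · have := S.hv
    omega
  · rw [Finset.disjoint_left]
    intro l hl hl'
    rw [Finset.mem_inter] at hl hl'
    exact (mem_ZL l).1 hl.1 ω hω hl'.1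

lemma ZL_inter_eq_one (S : Setup P L G k v) (h0 : (Orb ω₀).card = v ^ 2)
    (h1 : ∀ ω : MulAction.orbitRel.Quotient G P, ω ≠ ω₀ → (Orb ω).card = v)
    {ω : MulAction.orbitRel.Quotient G P} (hω : ω ≠ ω₀) {l : L} (hl : l ∈ ZL ω₀ L) :
    (Orb ω ∩ pts l).card = 1 := by
  classical
  have h := Finset.sum_card_bipartiteAbove_eq_sum_card_bipartiteBelow
    (s := Orb ω) (t := ZL ω₀ L) (fun (p : P) (l : L) => p ∈ l)
  have e1 : ∀ p ∈ Orb ω, (Finset.bipartiteAbove (fun (p : P) (l : L) => p ∈ l)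
      (ZL ω₀ L) p).card = v := by
    intro p hp
    rw [← card_ZL_through S h0 h1 hω hp]
    congr 1
    ext l
    rw [Finset.mem_bipartiteAbove, Finset.mem_inter, mem_lns]
  have e2 : ∀ l ∈ ZL ω₀ L, (Finset.bipartiteBelow (fun (p : P) (l : L) => p ∈ l)
      (Orb ω) l).card = (Orb ω ∩ pts l).card := by
    intro l hl
    congr 1
    ext p
    rw [Finset.mem_bipartiteBelow, Finset.mem_inter, mem_pts]
  rw [Finset.sum_congr rfl e1, Finset.sum_congr rfl e2, Finset.sum_const,
    h1 ω hω, smul_eq_mul] at h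
  have h3 : ∑ l ∈ ZL ω₀ L, (Orb ω ∩ pts l).card = ∑ l ∈ ZL ω₀ L, 1 := by
    rw [← h, Finset.sum_const, card_ZL S h0 h1, smul_eq_mul, mul_one, sq]
  exact (Finset.sum_eq_sum_iff_of_le (fun l hl => ZL_inter_le_one S h1 hω hl)).1 h3 l hl

end Ln

end Pool.Agent.MP_49949b_co
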