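import Pool.Agent.MP_49949b_co.GroupAct

set_option autoImplicit false
set_option linter.unusedSectionVars false

namespace Pool.Agent.MP_49949b_co

open Finset Configuration

section Orb

variable {P L : Type*} [Membership P L] [ProjectivePlane P L] [Fintype P] [Fintype L]
  [DecidableEq P] [DecidableEq L]
variable {G : Type*} [Group G] [Fintype G] [MulAction G P] [MulAction G L]
variable {k v : ℕ}

open Classical in
/-- The orbit of points indexed by a class. -/
noncomputable def Orb (ω : MulAction.orbitRel.Quotient G P) : Finset P :=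
  Finset.univ.filter (fun p => (Quotient.mk'' p : MulAction.orbitRel.Quotient G P) = ω)

lemma mem_Orb (ω : MulAction.orbitRel.Quotient G P) (p : P) :
    p ∈ Orb ω ↔ (Quotient.mk'' p : MulAction.orbitRel.Quotient G P) = ω := by simp [Orb]

lemma mem_Orb_mk (p q : P) :
    q ∈ Orb (Quotient.mk'' p : MulAction.orbitRel.Quotient G P) ↔ q ∈ MulAction.orbit G p := by
  rw [mem_Orb, Quotient.eq'', MulAction.orbitRel_apply]

lemma smul_mem_Orb (ω : MulAction.orbitRel.Quotient G P) (g : G) (p : P) (hp : p ∈ Orb ω) :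
    g • p ∈ Orb ω := by
  rw [mem_Orb] at *
  rw [← hp, Quotient.eq'', MulAction.orbitRel_apply]
  exact ⟨g, rfl⟩

lemma exists_smul_of_mem_Orb {ω : MulAction.orbitRel.Quotient G P} {p q : P} (hp : p ∈ Orb ω)
    (hq : q ∈ Orb ω) : ∃ g : G, g • p = q := by
  rw [mem_Orb] at *
  rw [← hp, Quotient.eq'', MulAction.orbitRel_apply] at hq
  obtain ⟨g, hg⟩ := hq
  exact ⟨g, hg⟩

lemma exists_mem_Orb (ω : MulAction.orbitRel.Quotient G P) : ∃ p, p ∈ Orb ω := by
  induction ω using Quotient.inductionOn' with
  | h p => exact ⟨p, (mem_Orb _ _).2 rfl⟩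

lemma Orb_disjoint {ω ω' : MulAction.orbitRel.Quotient G P} {p : P} (hp : p ∈ Orb ω)
    (hp' : p ∈ Orb ω') : ω = ω' := by
  rw [mem_Orb] at *
  exact hp.symm.trans hp'

lemma card_Orb_mul (S : Setup P L G k v) {ω : MulAction.orbitRel.Quotient G P} {p : P}
    (hp : p ∈ Orb ω) : (Orb ω).card * Nat.card (MulAction.stabilizer G p) = v ^ 2 := by
  classical
  have h1 : (Quotient.mk'' p : MulAction.orbitRel.Quotient G P) = ω := (mem_Orb _ _).1 hp
  subst h1
  have h2 := MulAction.card_orbit_mul_card_stabilizer_eq_card_group G p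
  rw [S.card] at h2
  rw [← h2, Nat.card_eq_fintype_card]
  congr 1
  rw [Fintype.card_subtype]
  congr 1
  ext q
  rw [mem_Orb_mk, Finset.mem_filter]
  simp

lemma Orb_subset_FP (S : Setup P L G k v) {ω : MulAction.orbitRel.Quotient G P} {p : P}
    (hp : p ∈ Orb ω) : Orb ω ⊆ FP P (MulAction.stabilizer G p) := by
  intro q hq
  rw [mem_FP]
  intro g hg
  obtain ⟨h, rfl⟩ := exists_smul_of_mem_Orb hp hq
  exact S.qrP g p _ ⟨h, rfl⟩ hg

lemma card_Orb_cases (S : Setup P L G k v) (ω : MulAction.orbitRel.Quotient G P) :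
    (Orb ω).card = v ^ 2 ∨ (Orb ω).card ≤ v := by
  obtain ⟨p, hp⟩ := exists_mem_Orb ω
  by_cases hs : MulAction.stabilizer G p = ⊥
  · left
    have := card_Orb_mul S hp
    rw [hs] at this
    simpa using this
  · right
    exact le_trans (Finset.card_le_card (Orb_subset_FP S hp)) (FP_card_le_v S (stab_normal S p) hs)

lemma sum_card_Orb (S : Setup P L G k v) [Fintype (MulAction.orbitRel.Quotient G P)] :
    ∑ ω : MulAction.orbitRel.Quotient G P, (Orb ω).card = v ^ 2 + 2 * k * v := by
  classical
  have h1 : (Finset.univ : Finset P).card = ∑ ω : MulAction.orbitRel.Quotient G P, (Orb ω).card := by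
    rw [Finset.card_eq_sum_card_fiberwise (f := fun p => (Quotient.mk'' p :
      MulAction.orbitRel.Quotient G P)) (t := Finset.univ) (fun _ _ => Finset.mem_coe.2 (Finset.mem_univ _))]
    apply Finset.sum_congr rfl
    intro ω _
    congr 1
  rw [← h1, Finset.card_univ, ProjectivePlane.card_points P L, S.order]
  have hv := S.hv
  have h2 : (v : ℤ) = (k : ℤ) ^ 2 - k + 1 := by
    have := congrArg (Nat.cast : ℕ → ℤ) hv
    push_cast at this
    linear_combination this
  zify
  rw [h2]
  ring

/-- There is exactly one regular orbit, and all others have size `v`. -/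
lemma exists_regular (S : Setup P L G k v) :
    ∃ ω₀ : MulAction.orbitRel.Quotient G P, (Orb ω₀).card = v ^ 2 ∧
      ∀ ω, ω ≠ ω₀ → (Orb ω).card = v := by
  classical
  have hfin : Fintype (MulAction.orbitRel.Quotient G P) := Fintype.ofFinite _
  have hk := S.hk
  have hv := S.hv
  have hcardΩ : (Finset.univ : Finset (MulAction.orbitRel.Quotient G P)).card = 2 * k + 1 := by
    rw [Finset.card_univ, ← Nat.card_eq_fintype_card, S.orb]
  have hsum := sum_card_Orb S
  have hv2k : 2 * k < v := by
    obtain ⟨c, hc⟩ := Nat.exists_eq_add_of_le hk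
    subst hc
    nlinarith
  have hex : ∃ ω₀ : MulAction.orbitRel.Quotient G P, (Orb ω₀).card = v ^ 2 := by
    by_contra hcon
    push Not at hcon
    have h1 : ∀ ω ∈ (Finset.univ : Finset (MulAction.orbitRel.Quotient G P)),
        (Orb ω).card ≤ v := by
      intro ω _
      rcases card_Orb_cases S ω with h | h
      · exact absurd h (hcon ω)
      · exact h
    have h2 := Finset.sum_le_card_nsmul _ _ _ h1
    rw [hsum, hcardΩ, smul_eq_mul] at h2
    nlinarith
  obtain ⟨ω₀, hω₀⟩ := hex
  refine ⟨ω₀, hω₀, ?_⟩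
  have hsplit := Finset.add_sum_erase Finset.univ
    (fun ω : MulAction.orbitRel.Quotient G P => (Orb ω).card) (Finset.mem_univ ω₀)
  rw [hsum, hω₀] at hsplit
  have hrest : ∑ ω ∈ Finset.univ.erase ω₀, (Orb ω).card = 2 * k * v := by omega
  have hle : ∀ ω ∈ Finset.univ.erase ω₀, (Orb ω).card ≤ v := by
    intro ω hω
    rcases card_Orb_cases S ω with h | h
    · exfalso
      have h1 := Finset.single_le_sum (f := fun ω : MulAction.orbitRel.Quotient G P => (Orb ω).card)
        (fun i _ => Nat.zero_le _) hω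
      rw [hrest, h] at h1
      nlinarith
    · exact h
  have hcard : (Finset.univ.erase ω₀ : Finset (MulAction.orbitRel.Quotient G P)).card = 2 * k := by
    rw [Finset.card_erase_of_mem (Finset.mem_univ _), hcardΩ]
    omega
  have heq : ∑ ω ∈ Finset.univ.erase ω₀, (Orb ω).card = ∑ ω ∈ Finset.univ.erase ω₀, v := by
    rw [hrest, Finset.sum_const, hcard, smul_eq_mul]
  have hall := (Finset.sum_eq_sum_iff_of_le hle).1 heq
  intro ω hω
  exact hall ω (Finset.mem_erase.2 ⟨hω, Finset.mem_univ _⟩)

end Orb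

end Pool.Agent.MP_49949b_co
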