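import Pool.Agent.MP_49949b_co.GroupRing

set_option autoImplicit false
set_option linter.unusedSectionVars false

namespace Pool.Agent.MP_49949b_co

open Finset

section Rel

variable {G : Type*} [CommGroup G] [Fintype G] [DecidableEq G]

open Classical in
/-- The elements of a subgroup as a finite set. -/
noncomputable def fs (H : Subgroup G) : Finset G := Finset.univ.filter (fun g => g ∈ H)

lemma mem_fs (H : Subgroup G) (g : G) : g ∈ fs H ↔ g ∈ H := by
  simp [fs]

lemma card_fs (H : Subgroup G) : (fs H).card = Nat.card H := by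
  classical
  rw [Nat.card_eq_fintype_card, Fintype.card_subtype]
  unfold fs
  congr 1

/-- `Γ * A = |A| Γ`. -/
lemma rel1 (R : Type*) [CommRing R] (A : Finset G) :
    ind R (Finset.univ : Finset G) * ind R A = (A.card : MonoidAlgebra R G) * ind R Finset.univ := by
  ext g
  rw [ind_mul_ind_coeff, ← nsmul_eq_mul, ← Nat.cast_smul_eq_nsmul R, MonoidAlgebra.coeff_smul_apply,
    ind_coeff]
  simp only [Finset.mem_univ, if_true, smul_eq_mul, mul_one]
  congr 1
  apply Finset.card_bij (fun p _ => p.2)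
  · intro p hp
    simp at hp
    exact hp.1
  · intro p hp p' hp' h
    simp at hp hp'
    ext
    · have h1 := hp.2.trans hp'.2.symm
      rw [h] at h1
      exact mul_right_cancel h1
    · exact h
  · intro a ha
    exact ⟨(g * a⁻¹, a), by simp [ha], rfl⟩

lemma rel1' (R : Type*) [CommRing R] (A : Finset G) :
    ind R (Finset.univ : Finset G) * inv' R (ind R A) =
      (A.card : MonoidAlgebra R G) * ind R Finset.univ := by
  have h := congrArg (inv' R) (rel1 R A)
  rw [map_mul, map_mul, map_natCast, inv'_ind R Finset.univ (by simp)] at h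
  exact h

/-- `N * N = |N| N` for a subgroup. -/
lemma rel2 (R : Type*) [CommRing R] (H : Subgroup G) :
    ind R (fs H) * ind R (fs H) = ((fs H).card : MonoidAlgebra R G) * ind R (fs H) := by
  ext g
  rw [ind_mul_ind_coeff, ← nsmul_eq_mul, ← Nat.cast_smul_eq_nsmul R, MonoidAlgebra.coeff_smul_apply,
    ind_coeff]
  split_ifs with hg
  · simp only [smul_eq_mul, mul_one]
    congr 1
    rw [mem_fs] at hg
    apply Finset.card_bij (fun p _ => p.2)
    · intro p hp
      simp at hp
      exact hp.1.2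
    · intro p hp p' hp' h
      simp at hp hp'
      ext
      · have h1 := hp.2.trans hp'.2.symm
        rw [h] at h1
        exact mul_right_cancel h1
      · exact h
    · intro a ha
      have ha' := (mem_fs H a).1 ha
      exact ⟨(g * a⁻¹, a), by simp [mem_fs, ha', H.mul_mem hg (H.inv_mem ha')], rfl⟩
  · simp only [smul_eq_mul, mul_zero]
    rw [Finset.card_eq_zero.2, Nat.cast_zero]
    rw [Finset.filter_eq_empty_iff]
    rintro ⟨a, b⟩ hab hgg
    simp only [Finset.mem_product, mem_fs] at hab
    apply hg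
    rw [mem_fs, ← hgg]
    exact H.mul_mem hab.1 hab.2

/-- `N_i * N_j = Γ` for two complementary subgroups. -/
lemma rel3 (R : Type*) [CommRing R] (H K : Subgroup G) (hHK : ∀ g, g ∈ H → g ∈ K → g = 1)
    (hc : (fs H).card * (fs K).card = Fintype.card G) :
    ind R (fs H) * ind R (fs K) = ind R Finset.univ := by
  ext g
  rw [ind_mul_ind_coeff, ind_coeff]
  simp only [Finset.mem_univ, if_true]
  have hinj : Set.InjOn (fun p : G × G => p.1 * p.2) ((fs H ×ˢ fs K : Finset (G × G)) : Set (G × G)) := by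
    rintro ⟨a, b⟩ hab ⟨c, d⟩ hcd h
    simp only [Finset.coe_product, Set.mem_prod, Finset.mem_coe, mem_fs] at hab hcd
    simp only at h
    have h1 : c⁻¹ * a = d * b⁻¹ := by
      rw [inv_mul_eq_iff_eq_mul, ← mul_assoc, eq_mul_inv_iff_mul_eq, h]
    have h2 : c⁻¹ * a = 1 :=
      hHK _ (H.mul_mem (H.inv_mem hcd.1) hab.1) (h1 ▸ K.mul_mem hcd.2 (K.inv_mem hab.2))
    have h3 : c = a := (inv_mul_eq_one.1 h2)
    have h4 : d * b⁻¹ = 1 := h1 ▸ h2
    have h5 : d = b := mul_inv_eq_one.1 h4
    rw [h3, h5]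
  have himg : (fs H ×ˢ fs K).image (fun p : G × G => p.1 * p.2) = Finset.univ := by
    apply Finset.eq_univ_of_card
    rw [Finset.card_image_of_injOn hinj, Finset.card_product, hc]
  have hg : g ∈ (fs H ×ˢ fs K).image (fun p : G × G => p.1 * p.2) := by
    rw [himg]; exact Finset.mem_univ g
  rw [Finset.mem_image] at hg
  obtain ⟨p, hp, hpg⟩ := hg
  rw [Finset.card_eq_one.2 ⟨p, ?_⟩, Nat.cast_one]
  ext p'
  simp only [Finset.mem_filter, Finset.mem_singleton]
  constructor
  · rintro ⟨h1, h2⟩
    exact hinj h1 hp (h2.trans hpg.symm)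
  · rintro rfl
    exact ⟨hp, hpg⟩

lemma ind_mul_inv'_ind_coeff (R : Type*) [CommRing R] (A B : Finset G) (g : G) :
    (ind R A * inv' R (ind R B)).coeff g =
      (((A ×ˢ B).filter (fun p : G × G => p.1 * p.2⁻¹ = g)).card : R) := by
  unfold ind
  rw [map_sum]
  simp only [inv'_single]
  rw [Finset.sum_mul_sum, ← Finset.sum_product', MonoidAlgebra.coeff_sum,
    Finsupp.finsetSum_apply]
  simp only [MonoidAlgebra.single_mul_single, MonoidAlgebra.coeff_single, Finsupp.single_apply,
    mul_one]
  rw [Finset.sum_ite, Finset.sum_const_zero, add_zero, Finset.sum_const, nsmul_eq_mul, mul_one]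

/-- The combinatorial data attached to a plane of type (h). -/
structure TypeH {ι : Type*} [Fintype ι] (k v : ℕ) (N : ι → Subgroup G) (D : Finset G) : Prop where
  hv : v + k = k ^ 2 + 1
  hk : 3 ≤ k
  hι : Fintype.card ι = 2 * k
  hG : Fintype.card G = v ^ 2
  hN : ∀ i, (fs (N i)).card = v
  hdisj : ∀ i j, i ≠ j → ∀ g, g ∈ N i → g ∈ N j → g = 1
  hD : D.card + 2 * k = k ^ 2 + 1
  h0 : ∀ i, ∀ x ∈ D, ∀ y ∈ D, x * y⁻¹ ∈ N i → x = y
  h1 : ∀ h : G, h ≠ 1 → (∀ i, h ∉ N i) →
    ((D ×ˢ D).filter (fun p : G × G => p.1 * p.2⁻¹ = h)).card = 1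

variable {ι : Type*} [Fintype ι] {k v : ℕ} {N : ι → Subgroup G} {D : Finset G}

/-- The sum of all `N_i` in the group ring. -/
noncomputable def SS (R : Type*) [CommRing R] (N : ι → Subgroup G) : MonoidAlgebra R G :=
  ∑ i, ind R (fs (N i))

lemma SS_coeff (R : Type*) [CommRing R] (g : G) :
    (SS R N).coeff g = ∑ i, if g ∈ fs (N i) then (1 : R) else 0 := by
  unfold SS
  rw [MonoidAlgebra.coeff_sum, Finsupp.finsetSum_apply]
  simp only [ind_coeff]

lemma rel4 (R : Type*) [CommRing R] (H : TypeH k v N D) :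
    ind R D * inv' R (ind R D) =
      (k : MonoidAlgebra R G) ^ 2 + ind R Finset.univ - SS R N := by
  ext g
  rw [ind_mul_inv'_ind_coeff, MonoidAlgebra.coeff_sub, MonoidAlgebra.coeff_add, Finsupp.sub_apply,
    Finsupp.add_apply, SS_coeff, ind_coeff]
  have hkk : ((k : MonoidAlgebra R G) ^ 2).coeff g = if g = 1 then (k : R) ^ 2 else 0 := by
    rw [← Nat.cast_pow, MonoidAlgebra.coeff_natCast, Finsupp.single_apply]
    simp only [eq_comm, Nat.cast_pow]
  rw [hkk]
  simp only [Finset.mem_univ, if_true]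
  by_cases hg : g = 1
  · subst hg
    have h1 : ∀ i, (1 : G) ∈ fs (N i) := fun i => (mem_fs _ _).2 (N i).one_mem
    simp only [if_true, h1]
    rw [Finset.sum_const, Finset.card_univ, H.hι]
    have h2 : ((D ×ˢ D).filter (fun p : G × G => p.1 * p.2⁻¹ = 1)).card = D.card := by
      symm
      apply Finset.card_bij (fun x _ => (x, x))
      · intro x hx
        simp [hx]
      · intro x _ y _ h
        exact (Prod.ext_iff.1 h).1
      · rintro ⟨a, b⟩ hab
        simp only [Finset.mem_filter, Finset.mem_product, mul_inv_eq_one] at hab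
        exact ⟨a, hab.1.1, by rw [← hab.2]⟩
    rw [h2]
    have h3 := congrArg (Nat.cast : ℕ → R) H.hD
    push_cast at h3
    rw [nsmul_eq_mul]
    push_cast
    linear_combination h3
  · simp only [hg, if_false]
    by_cases hi : ∃ i, g ∈ N i
    · obtain ⟨i, hi⟩ := hi
      have h2 : ((D ×ˢ D).filter (fun p : G × G => p.1 * p.2⁻¹ = g)).card = 0 := by
        rw [Finset.card_eq_zero, Finset.filter_eq_empty_iff]
        rintro ⟨a, b⟩ hab hh
        simp only [Finset.mem_product] at hab
        have := H.h0 i a hab.1 b hab.2 (by rw [hh]; exact hi)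
        apply hg
        rw [← hh, this, mul_inv_cancel]
      have h3 : (∑ j, if g ∈ fs (N j) then (1 : R) else 0) = 1 := by
        rw [Finset.sum_eq_single i]
        · rw [if_pos ((mem_fs _ _).2 hi)]
        · intro j _ hj
          rw [if_neg]
          intro hgj
          exact hg (H.hdisj j i hj g ((mem_fs _ _).1 hgj) hi)
        · intro h; exact absurd (Finset.mem_univ i) h
      rw [h2, h3]
      simp
    · push Not at hi
      have h3 : (∑ j, if g ∈ fs (N j) then (1 : R) else 0) = 0 := by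
        apply Finset.sum_eq_zero
        intro j _
        rw [if_neg (fun h => hi j ((mem_fs _ _).1 h))]
      rw [H.h1 g hg hi, h3]
      simp

lemma cast_v (R : Type*) [CommRing R] (hv : v + k = k ^ 2 + 1) :
    (v : R) = (k : R) ^ 2 - k + 1 := by
  have h3 := congrArg (Nat.cast : ℕ → R) hv
  push_cast at h3
  linear_combination h3

lemma cast_D (R : Type*) [CommRing R] (H : TypeH k v N D) :
    (D.card : R) = ((k : R) - 1) ^ 2 := by
  have h3 := congrArg (Nat.cast : ℕ → R) H.hD
  push_cast at h3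
  linear_combination h3

lemma relS2 (R : Type*) [CommRing R] (H : TypeH k v N D) :
    SS R N * SS R N = (v : MonoidAlgebra R G) * SS R N +
      2 * (k : MonoidAlgebra R G) * (2 * (k : MonoidAlgebra R G) - 1) * ind R Finset.univ := by
  classical
  have hc : ∀ i j, (fs (N i)).card * (fs (N j)).card = Fintype.card G := by
    intro i j
    rw [H.hN, H.hN, H.hG, sq]
  have h : SS R N * SS R N = ∑ i : ι, ∑ j : ι, (if i = j then
      (v : MonoidAlgebra R G) * ind R (fs (N i)) - ind R Finset.univ else 0) +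
      ∑ i : ι, ∑ j : ι, ind R Finset.univ := by
    unfold SS
    rw [Finset.sum_mul_sum, ← Finset.sum_add_distrib]
    apply Finset.sum_congr rfl
    intro i _
    rw [← Finset.sum_add_distrib]
    apply Finset.sum_congr rfl
    intro j _
    by_cases hij : i = j
    · subst hij
      rw [if_pos rfl, rel2, H.hN]
      ring
    · rw [if_neg hij, rel3 R (N i) (N j) (H.hdisj i j hij) (hc i j)]
      ring
  rw [h]
  simp only [Finset.sum_ite_eq, Finset.mem_univ, if_true, Finset.sum_sub_distrib, Finset.sum_const,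
    Finset.card_univ, H.hι, ← Finset.mul_sum]
  unfold SS
  simp only [nsmul_eq_mul]
  push_cast
  ring

lemma relSG (R : Type*) [CommRing R] (H : TypeH k v N D) :
    SS R N * ind R Finset.univ =
      2 * (k : MonoidAlgebra R G) * (v : MonoidAlgebra R G) * ind R Finset.univ := by
  unfold SS
  rw [Finset.sum_mul]
  have : ∀ i, ind R (fs (N i)) * ind R Finset.univ = (v : MonoidAlgebra R G) * ind R Finset.univ := by
    intro i
    rw [mul_comm, rel1, H.hN]
  simp only [this]
  rw [Finset.sum_const, Finset.card_univ, H.hι, nsmul_eq_mul]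
  push_cast
  ring

lemma relGG (R : Type*) [CommRing R] (H : TypeH k v N D) :
    ind R (Finset.univ : Finset G) * ind R Finset.univ =
      (v : MonoidAlgebra R G) ^ 2 * ind R Finset.univ := by
  rw [rel1, Finset.card_univ, H.hG]
  push_cast
  ring

lemma relGd (R : Type*) [CommRing R] (H : TypeH k v N D) :
    ind R (Finset.univ : Finset G) * ind R D =
      ((k : MonoidAlgebra R G) - 1) ^ 2 * ind R Finset.univ := by
  rw [rel1, cast_D _ H]

lemma relGd' (R : Type*) [CommRing R] (H : TypeH k v N D) :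
    ind R (Finset.univ : Finset G) * inv' R (ind R D) =
      ((k : MonoidAlgebra R G) - 1) ^ 2 * ind R Finset.univ := by
  rw [rel1', cast_D _ H]

lemma inv'_SS (R : Type*) [CommRing R] : inv' R (SS R N) = SS R N := by
  unfold SS
  rw [map_sum]
  apply Finset.sum_congr rfl
  intro i _
  apply inv'_ind
  intro g
  rw [mem_fs, mem_fs, inv_mem_iff]

lemma inv'_univ (R : Type*) [CommRing R] :
    inv' R (ind R (Finset.univ : Finset G)) = ind R Finset.univ := by
  apply inv'_ind
  simp

/-- The auxiliary element `W`. -/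
noncomputable def WW (R : Type*) [CommRing R] (k v : ℕ) (N : ι → Subgroup G) (D : Finset G) :
    MonoidAlgebra R G :=
  (v : MonoidAlgebra R G) ^ 2 * ind R D - (v : MonoidAlgebra R G) * (SS R N * ind R D) +
    (2 * (k : MonoidAlgebra R G) - 1) * ((k : MonoidAlgebra R G) - 1) ^ 2 * ind R Finset.univ

lemma WW_mul (R : Type*) [CommRing R] (H : TypeH k v N D) :
    WW R k v N D * inv' R (WW R k v N D) =
      (v : MonoidAlgebra R G) ^ 2 * (k : MonoidAlgebra R G) ^ 2 *
        ((v : MonoidAlgebra R G) ^ 2 - (v : MonoidAlgebra R G) * SS R N +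
        (2 * (k : MonoidAlgebra R G) - 1) * ind R Finset.univ) := by
  have e1 : inv' R (WW R k v N D) = (v : MonoidAlgebra R G) ^ 2 * inv' R (ind R D)
      - (v : MonoidAlgebra R G) * (SS R N * inv' R (ind R D)) +
      (2 * (k : MonoidAlgebra R G) - 1) * ((k : MonoidAlgebra R G) - 1) ^ 2 *
        ind R Finset.univ := by
    unfold WW
    simp only [map_add, map_sub, map_mul, map_pow, map_natCast, inv'_SS, inv'_univ, map_one,
      map_ofNat]
  rw [e1]
  unfold WW
  have h1 := rel4 R H
  have h2 := relS2 R H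
  have h3 := relSG R H
  have h4 := relGG R H
  have h5 := relGd R H
  have h5' := relGd' R H
  have hv := cast_v (MonoidAlgebra R G) H.hv
  generalize (ind R D) = d at *
  generalize (inv' R d) = e at *
  generalize (ind R (Finset.univ : Finset G)) = Γ at *
  generalize (SS R N) = S at *
  generalize (v : MonoidAlgebra R G) = V at *
  generalize (k : MonoidAlgebra R G) = K at *
  subst hv
  linear_combination ((K ^ 2 - K + 1) ^ 2 - (K ^ 2 - K + 1) * S) ^ 2 * h1
    + ((2 * K - 1) * (K - 1) ^ 2) * ((K ^ 2 - K + 1) ^ 2 - (K ^ 2 - K + 1) * S) * (h5 + h5')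
    + ((K ^ 2 - K + 1) ^ 2 * (K ^ 2 + Γ - S) + (K ^ 2 - K + 1) ^ 3) * h2
    + (- (K ^ 2 - K + 1) ^ 3 - (2 * K * (2 * K - 1)) * (K ^ 2 - K + 1) ^ 2
        - 2 * ((2 * K - 1) * (K - 1) ^ 2) * (K - 1) ^ 2 * (K ^ 2 - K + 1)) * h3
    + ((K ^ 2 - K + 1) ^ 2 * (2 * K * (2 * K - 1)) + ((2 * K - 1) * (K - 1) ^ 2) ^ 2) * h4

end Rel

end Pool.Agent.MP_49949b_co
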