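import Pool.Agent.MP_49949b_co.Orbits

set_option autoImplicit false
set_option linter.unusedSectionVars false

namespace Pool.Agent.MP_49949b_co

open Finset Configuration

section St

variable {P L : Type*} [Membership P L] [ProjectivePlane P L] [Fintype P] [Fintype L]
  [DecidableEq P] [DecidableEq L]
variable {G : Type*} [Group G] [Fintype G] [MulAction G P] [MulAction G L]
variable {k v : ℕ}

/-- A representative of a class. -/
noncomputable def rep (ω : MulAction.orbitRel.Quotient G P) : P :=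
  Classical.choose (exists_mem_Orb ω)

lemma rep_mem (ω : MulAction.orbitRel.Quotient G P) : rep ω ∈ Orb ω :=
  Classical.choose_spec (exists_mem_Orb ω)

/-- The stabilizer of the representative. -/
noncomputable def Nst (ω : MulAction.orbitRel.Quotient G P) : Subgroup G :=
  MulAction.stabilizer G (rep ω)

lemma Nst_normal (S : Setup P L G k v) (ω : MulAction.orbitRel.Quotient G P) :
    (Nst ω).Normal := stab_normal S _

lemma mem_Nst_iff (S : Setup P L G k v) {ω : MulAction.orbitRel.Quotient G P} {p : P}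
    (hp : p ∈ Orb ω) (g : G) : g ∈ Nst ω ↔ g • p = p := by
  constructor
  · intro hg
    obtain ⟨h, rfl⟩ := exists_smul_of_mem_Orb (rep_mem ω) hp
    exact S.qrP g _ _ ⟨h, rfl⟩ hg
  · intro hg
    obtain ⟨h, hh⟩ := exists_smul_of_mem_Orb hp (rep_mem ω)
    change g • rep ω = rep ω
    exact S.qrP g p _ ⟨h, hh⟩ hg

lemma v_facts (S : Setup P L G k v) : 7 ≤ v ∧ 2 * k < v := by
  have hk := S.hk
  have hv := S.hv
  obtain ⟨c, hc⟩ := Nat.exists_eq_add_of_le hk
  subst hc
  constructor <;> nlinarith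

variable {ω₀ : MulAction.orbitRel.Quotient G P}

lemma card_Nst (S : Setup P L G k v)
    (h1 : ∀ ω : MulAction.orbitRel.Quotient G P, ω ≠ ω₀ → (Orb ω).card = v)
    {ω : MulAction.orbitRel.Quotient G P} (hω : ω ≠ ω₀) : Nat.card (Nst ω) = v := by
  have h2 := card_Orb_mul S (rep_mem ω)
  rw [h1 ω hω, sq] at h2
  exact Nat.eq_of_mul_eq_mul_left (by have := v_facts S; omega) h2

lemma Nst_ne_bot (S : Setup P L G k v)
    (h1 : ∀ ω : MulAction.orbitRel.Quotient G P, ω ≠ ω₀ → (Orb ω).card = v)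
    {ω : MulAction.orbitRel.Quotient G P} (hω : ω ≠ ω₀) : Nst ω ≠ ⊥ := by
  intro h
  have h2 := card_Nst S h1 hω
  rw [h, Subgroup.card_bot] at h2
  have := v_facts S
  omega

lemma Orb_eq_FP (S : Setup P L G k v)
    (h1 : ∀ ω : MulAction.orbitRel.Quotient G P, ω ≠ ω₀ → (Orb ω).card = v)
    {ω : MulAction.orbitRel.Quotient G P} (hω : ω ≠ ω₀) : Orb ω = FP P (Nst ω) := by
  apply Finset.eq_of_subset_of_card_le (Orb_subset_FP S (rep_mem ω))
  rw [h1 ω hω]
  exact FP_card_le_v S (Nst_normal S ω) (Nst_ne_bot S h1 hω)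

lemma regular_free (S : Setup P L G k v) (h0 : (Orb ω₀).card = v ^ 2) {p : P} (hp : p ∈ Orb ω₀)
    {g : G} (hg : g • p = p) : g = 1 := by
  have h2 := card_Orb_mul S hp
  rw [h0] at h2
  have hv := v_facts S
  have h3 : Nat.card (MulAction.stabilizer G p) = 1 := by
    have : v ^ 2 * Nat.card (MulAction.stabilizer G p) = v ^ 2 * 1 := by rw [h2, mul_one]
    exact Nat.eq_of_mul_eq_mul_left (pow_pos (by omega) 2) this
  have h4 := Subgroup.card_eq_one.1 h3
  have h5 : g ∈ MulAction.stabilizer G p := hg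
  rw [h4] at h5
  exact Subgroup.mem_bot.1 h5

lemma Nst_disjoint (S : Setup P L G k v)
    (h1 : ∀ ω : MulAction.orbitRel.Quotient G P, ω ≠ ω₀ → (Orb ω).card = v)
    {ω ω' : MulAction.orbitRel.Quotient G P} (hω : ω ≠ ω₀) (hω' : ω' ≠ ω₀) (hne : ω ≠ ω')
    {g : G} (hg : g ∈ Nst ω) (hg' : g ∈ Nst ω') : g = 1 := by
  by_contra hg1
  have hn : (Nst ω ⊓ Nst ω').Normal := by
    have := Nst_normal S ω
    have := Nst_normal S ω'
    infer_instance
  have hb : Nst ω ⊓ Nst ω' ≠ ⊥ := by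
    intro hb
    apply hg1
    have : g ∈ Nst ω ⊓ Nst ω' := ⟨hg, hg'⟩
    rw [hb] at this
    exact (Subgroup.mem_bot).1 this
  have h2 := FP_card_le_v S hn hb
  have h3 : Orb ω ∪ Orb ω' ⊆ FP P (Nst ω ⊓ Nst ω') := by
    intro p hp
    rw [mem_FP]
    intro x hx
    rcases Finset.mem_union.1 hp with h | h
    · exact (mem_Nst_iff S h x).1 hx.1
    · exact (mem_Nst_iff S h x).1 hx.2
  have h4 := Finset.card_le_card h3
  rw [Finset.card_union_of_disjoint, h1 ω hω, h1 ω' hω'] at h4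
  · have := v_facts S
    omega
  · rw [Finset.disjoint_left]
    intro p hp hp'
    exact hne (Orb_disjoint hp hp')

lemma Nst_mul (S : Setup P L G k v)
    (h1 : ∀ ω : MulAction.orbitRel.Quotient G P, ω ≠ ω₀ → (Orb ω).card = v)
    {ω ω' : MulAction.orbitRel.Quotient G P} (hω : ω ≠ ω₀) (hω' : ω' ≠ ω₀) (hne : ω ≠ ω')
    (g : G) : ∃ a ∈ Nst ω, ∃ b ∈ Nst ω', a * b = g := by
  classical
  have hinj : Function.Injective (fun x : Nst ω × Nst ω' => (x.1 : G) * (x.2 : G)) := by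
    rintro ⟨a, b⟩ ⟨c, d⟩ h
    simp only at h
    have h2 : (c : G)⁻¹ * a = d * (b : G)⁻¹ := by
      rw [inv_mul_eq_iff_eq_mul, ← mul_assoc, eq_mul_inv_iff_mul_eq, h]
    have h3 : (c : G)⁻¹ * a = 1 :=
      Nst_disjoint S h1 hω hω' hne ((Nst ω).mul_mem ((Nst ω).inv_mem c.2) a.2)
        (h2 ▸ (Nst ω').mul_mem d.2 ((Nst ω').inv_mem b.2))
    have h4 : (c : G) = a := inv_mul_eq_one.1 h3
    have h5 : (d : G) * (b : G)⁻¹ = 1 := h2 ▸ h3
    have h6 : (d : G) = b := mul_inv_eq_one.1 h5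
    exact Prod.ext (Subtype.ext h4.symm) (Subtype.ext h6.symm)
  have hbij : Function.Bijective (fun x : Nst ω × Nst ω' => (x.1 : G) * (x.2 : G)) := by
    rw [Fintype.bijective_iff_injective_and_card]
    refine ⟨hinj, ?_⟩
    rw [Fintype.card_prod, ← Nat.card_eq_fintype_card, ← Nat.card_eq_fintype_card (α := Nst ω'),
      card_Nst S h1 hω, card_Nst S h1 hω', S.card, sq]
  obtain ⟨⟨a, b⟩, hab⟩ := hbij.2 g
  exact ⟨a, a.2, b, b.2, hab⟩

lemma Nst_commute (S : Setup P L G k v)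
    (h1 : ∀ ω : MulAction.orbitRel.Quotient G P, ω ≠ ω₀ → (Orb ω).card = v)
    {ω ω' : MulAction.orbitRel.Quotient G P} (hω : ω ≠ ω₀) (hω' : ω' ≠ ω₀) (hne : ω ≠ ω')
    {a b : G} (ha : a ∈ Nst ω) (hb : b ∈ Nst ω') : a * b = b * a := by
  have hn := Nst_normal S ω
  have hn' := Nst_normal S ω'
  have hd : Disjoint (Nst ω) (Nst ω') := by
    rw [Subgroup.disjoint_def]
    intro x hx hx'
    exact Nst_disjoint S h1 hω hω' hne hx hx'
  exact Subgroup.commute_of_normal_of_disjoint _ _ hn hn' hd a b ha hb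

/-- There are many classes. -/
lemma exists_classes (S : Setup P L G k v) (ω₀ : MulAction.orbitRel.Quotient G P)
    (T : Finset (MulAction.orbitRel.Quotient G P)) (hT : T.card ≤ 5) :
    ∃ ω, ω ≠ ω₀ ∧ ω ∉ T := by
  classical
  have hfin : Fintype (MulAction.orbitRel.Quotient G P) := Fintype.ofFinite _
  have hcardΩ : (Finset.univ : Finset (MulAction.orbitRel.Quotient G P)).card = 2 * k + 1 := by
    rw [Finset.card_univ, ← Nat.card_eq_fintype_card, S.orb]
  have hk := S.hk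
  by_contra hcon
  push Not at hcon
  have hsub : (Finset.univ : Finset (MulAction.orbitRel.Quotient G P)) ⊆ insert ω₀ T := by
    intro ω _
    rw [Finset.mem_insert]
    by_cases h : ω = ω₀
    · exact Or.inl h
    · exact Or.inr (hcon ω h)
  have h2 := Finset.card_le_card hsub
  have h3 := Finset.card_insert_le ω₀ T
  omega

lemma Nst_central (S : Setup P L G k v)
    (h1 : ∀ ω : MulAction.orbitRel.Quotient G P, ω ≠ ω₀ → (Orb ω).card = v)
    {ω : MulAction.orbitRel.Quotient G P} (hω : ω ≠ ω₀) {a : G} (ha : a ∈ Nst ω) (g : G) :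
    a * g = g * a := by
  classical
  obtain ⟨ω', hω', hT'⟩ := exists_classes S ω₀ {ω} (by simp)
  obtain ⟨ω'', hω'', hT''⟩ := exists_classes S ω₀ {ω, ω'}
    (le_trans (Finset.card_insert_le _ _) (by simp))
  simp only [Finset.mem_insert, Finset.mem_singleton, not_or] at hT' hT''
  obtain ⟨b, hb, c, hc, rfl⟩ := Nst_mul S h1 hω' hω'' (Ne.symm hT''.2) g
  have e1 := Nst_commute S h1 hω hω' (Ne.symm hT') ha hb
  have e2 := Nst_commute S h1 hω hω'' (Ne.symm hT''.1) ha hc
  rw [← mul_assoc, e1, mul_assoc, e2, mul_assoc]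

lemma group_comm (S : Setup P L G k v)
    (h1 : ∀ ω : MulAction.orbitRel.Quotient G P, ω ≠ ω₀ → (Orb ω).card = v) (a b : G) :
    a * b = b * a := by
  classical
  obtain ⟨ω, hω, hT⟩ := exists_classes S ω₀ ∅ (by simp)
  obtain ⟨ω', hω', hT'⟩ := exists_classes S ω₀ {ω} (by simp)
  simp only [Finset.mem_singleton] at hT'
  obtain ⟨c, hc, d, hd, rfl⟩ := Nst_mul S h1 hω hω' (Ne.symm hT') a
  rw [mul_assoc, Nst_central S h1 hω' hd b, ← mul_assoc, Nst_central S h1 hω hc b, mul_assoc]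

end St

end Pool.Agent.MP_49949b_co
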